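import Pool.Agent.TH158.FM.Stm

set_option autoImplicit false

namespace Pool.Agent.TH158.FM

open Complex MeasureTheory Set

noncomputable section

lemma zeta_even (t : ℝ) : ‖riemannZeta (pt (1 / 2) (-t))‖ = ‖riemannZeta (pt (1 / 2) t)‖ := by
  have : pt (1 / 2) (-t) = (starRingEnd ℂ) (pt (1 / 2) t) := by
    apply Complex.ext <;> simp [pt]
  rw [this, riemannZeta_conj, RCLike.norm_conj]

lemma zeta_cont : Continuous (fun t : ℝ => riemannZeta (pt (1 / 2) t)) := by
  rw [continuous_iff_continuousAt]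
  intro t
  have hs1 : pt (1 / 2) t ≠ 1 := by
    intro h
    have := congrArg Complex.re h
    simp [pt] at this
  exact ContinuousAt.comp (f := fun t : ℝ => pt (1 / 2) t) (g := riemannZeta)
      (differentiableAt_riemannZeta hs1).continuousAt (by unfold pt; fun_prop)

/-- from the weight on the line to the interval `[0, T]` -/
lemma to_interval {T : ℝ} (hT : 0 < T)
    (hI : Integrable (fun t : ℝ => ‖riemannZeta (pt (1 / 2) t)‖ ^ 4 *
      (Real.exp (-(2 * (1 / (2 * T)) * t)) / (1 + Real.exp (-(2 * Real.pi * t)))))) :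
    ∫ t in (0:ℝ)..T, ‖riemannZeta (pt (1 / 2) t)‖ ^ 4 ≤ Real.exp 1 *
      ∫ t : ℝ, ‖riemannZeta (pt (1 / 2) t)‖ ^ 4 *
      (Real.exp (-(2 * (1 / (2 * T)) * t)) / (1 + Real.exp (-(2 * Real.pi * t)))) := by
  set f : ℝ → ℝ := fun t => ‖riemannZeta (pt (1 / 2) t)‖ ^ 4 *
      (Real.exp (-(2 * (1 / (2 * T)) * t)) / (1 + Real.exp (-(2 * Real.pi * t)))) with hf
  have hfc : Continuous f := by
    have := zeta_cont
    have h2 : ∀ t : ℝ, 1 + Real.exp (-(2 * Real.pi * t)) ≠ 0 := fun t => by positivity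
    exact (this.norm.pow 4).mul (Continuous.div (by fun_prop) (by fun_prop) h2)
  have hf0 : ∀ t, 0 ≤ f t := fun t => by simp only [hf]; positivity
  have h1 : ∫ t in (-T)..T, f t ≤ ∫ t, f t := by
    rw [intervalIntegral.integral_of_le (by linarith)]
    exact setIntegral_le_integral hI (Filter.Eventually.of_forall hf0)
  have h2 : ∫ t in (-T)..T, f t = (∫ t in (0:ℝ)..T, f (-t)) + ∫ t in (0:ℝ)..T, f t := by
    rw [intervalIntegral.integral_comp_neg, neg_zero]
    exact (intervalIntegral.integral_add_adjacent_intervals (hfc.intervalIntegrable _ _)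
      (hfc.intervalIntegrable _ _)).symm
  have h3 : ∫ t in (0:ℝ)..T, ‖riemannZeta (pt (1 / 2) t)‖ ^ 4 ≤
      ∫ t in (0:ℝ)..T, Real.exp 1 * (f (-t) + f t) := by
    apply intervalIntegral.integral_mono_on hT.le
    · exact (zeta_cont.norm.pow 4).intervalIntegrable _ _
    · exact (continuous_const.mul ((hfc.comp continuous_neg).add hfc)).intervalIntegrable _ _
    · intro t ht
      obtain ⟨ht0, htT⟩ := ht
      simp only [hf]
      rw [zeta_even]
      set Z := ‖riemannZeta (pt (1 / 2) t)‖ ^ 4 with hZ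
      have hZ0 : 0 ≤ Z := by positivity
      have e1 : Real.exp (-(2 * Real.pi * -t)) = (Real.exp (-(2 * Real.pi * t)))⁻¹ := by
        rw [← Real.exp_neg]; congr 1; ring
      have e2 : Real.exp (-(2 * (1 / (2 * T)) * t)) ≤ Real.exp (-(2 * (1 / (2 * T)) * -t)) := by
        apply Real.exp_le_exp.2
        have : 0 ≤ 2 * (1 / (2 * T)) * t := by positivity
        linarith
      have e3 : 1 ≤ Real.exp 1 * Real.exp (-(2 * (1 / (2 * T)) * t)) := by
        rw [← Real.exp_add]
        apply Real.one_le_exp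
        have : 2 * (1 / (2 * T)) * t ≤ 1 := by
          have e : 2 * (1 / (2 * T)) * t = t / T := by field_simp
          rw [e, div_le_one hT]
          exact htT
        linarith
      rw [e1]
      set b := Real.exp (-(2 * Real.pi * t)) with hb
      have hb0 : 0 < b := Real.exp_pos _
      set u := Real.exp (-(2 * (1 / (2 * T)) * t))
      set v := Real.exp (-(2 * (1 / (2 * T)) * -t))
      have hu : 0 < u := Real.exp_pos _
      have e4 : u ≤ v / (1 + b⁻¹) + u / (1 + b) := by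
        have : v / (1 + b⁻¹) = v * b / (1 + b) := by field_simp; ring
        rw [this, ← add_div, le_div_iff₀ (by positivity)]
        nlinarith
      calc Z = Z * 1 := (mul_one _).symm
        _ ≤ Z * (Real.exp 1 * u) := by gcongr
        _ ≤ Z * (Real.exp 1 * (v / (1 + b⁻¹) + u / (1 + b))) := by gcongr
        _ = _ := by ring
  have h4 : ∫ t in (0:ℝ)..T, Real.exp 1 * (f (-t) + f t) =
      Real.exp 1 * ((∫ t in (0:ℝ)..T, f (-t)) + ∫ t in (0:ℝ)..T, f t) := by
    rw [intervalIntegral.integral_const_mul, intervalIntegral.integral_add]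
    · exact (hfc.comp continuous_neg).intervalIntegrable _ _
    · exact hfc.intervalIntegrable _ _
  rw [h4, ← h2] at h3
  exact h3.trans (mul_le_mul_of_nonneg_left h1 (Real.exp_pos _).le)

lemma log_thousand : (69:ℝ) / 10 ≤ Real.log 1000 := by
  rw [Real.le_log_iff_exp_le (by norm_num)]
  have h := Real.exp_one_lt_d9
  have h1 : Real.exp (69 / 10) ^ 10 ≤ (1000:ℝ) ^ 10 := by
    rw [← Real.exp_nat_mul]
    have : ((10:ℕ):ℝ) * (69 / 10) = ((69:ℕ):ℝ) * 1 := by norm_num
    rw [this, Real.exp_nat_mul]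
    calc Real.exp 1 ^ 69 ≤ (2.7182818286 : ℝ) ^ 69 := by gcongr
      _ ≤ 1000 ^ 10 := by norm_num
  exact le_of_pow_le_pow_left₀ (by norm_num) (by norm_num) h1

/-- the final numerical step -/
theorem fourth (h1 : S_REFL) (h2 : S_BB) (h3 : S_NORM) (T : ℝ) (hT : 1000 ≤ T) :
    ∫ t in (0:ℝ)..T, ‖riemannZeta (pt (1 / 2) t)‖ ^ 4 ≤ 4 / 5 * (T * Real.log T ^ 4) := by
  have hT0 : 0 < T := by linarith
  have hδ : 0 < 1 / (2 * T) := by positivity
  have hδ1 : 1 / (2 * T) ≤ 1 / 100 := by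
    apply one_div_le_one_div_of_le (by norm_num); linarith
  have hδ2 : 1 / (2 * T) < Real.pi / 2 := by linarith [Real.pi_gt_three]
  obtain ⟨n1, n2⟩ := h3 T hT
  obtain ⟨b1, b2⟩ := h2 (1 / (2 * T)) hδ.le hδ1
  have hl : (69:ℝ) / 10 ≤ Real.log T := log_thousand.trans (Real.log_le_log (by norm_num) hT)
  have hs : (316:ℝ) / 10 ≤ Real.sqrt T := by
    rw [Real.le_sqrt (by norm_num) hT0.le]
    norm_num
    linarith
  obtain ⟨i1, i2⟩ := h1 (1 / (2 * T)) (3769 / 10000 * Real.sqrt T * Real.log T ^ 2 + 2) 13 hδ hδ2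
    (by positivity) (by norm_num) n1 n2 b1 (b2.trans (by norm_num))
  refine (to_interval hT0 i1).trans ?_
  have he := Real.exp_one_lt_d9
  set X := Real.sqrt T * Real.log T ^ 2 with hX
  have hX1 : 1500 ≤ X := by
    have : (69 / 10 : ℝ) ^ 2 ≤ Real.log T ^ 2 := by gcongr
    calc (1500:ℝ) ≤ 316 / 10 * (69 / 10) ^ 2 := by norm_num
      _ ≤ Real.sqrt T * Real.log T ^ 2 := by gcongr
  have hX2 : T * Real.log T ^ 4 = X ^ 2 := by
    rw [hX, mul_pow, Real.sq_sqrt hT0.le]; ring
  rw [hX2]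
  have e : 3769 / 10000 * Real.sqrt T * Real.log T ^ 2 = 3769 / 10000 * X := by rw [hX]; ring
  rw [e] at i2
  refine (mul_le_mul_of_nonneg_left i2 (Real.exp_pos 1).le).trans ?_
  have h5 : (3769 / 10000 * X + 2) ^ 2 + (3769 / 10000 * X + 2 + 13) ^ 2 ≤ 29277 / 100000 * X ^ 2 := by
    nlinarith
  calc Real.exp 1 * ((3769 / 10000 * X + 2) ^ 2 + (3769 / 10000 * X + 2 + 13) ^ 2)
      ≤ 2.7182818286 * (29277 / 100000 * X ^ 2) := by gcongr
    _ ≤ 4 / 5 * X ^ 2 := by nlinarith [sq_nonneg X]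

end

end Pool.Agent.TH158.FM
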