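import Pool.Agent.TH158.FM.Stm2
import Pool.Agent.TH158.FM.F1

set_option autoImplicit false

namespace Pool.Agent.TH158.FM

open Complex MeasureTheory Set

noncomputable section

/-- the moment of order `2k` -/
def MM (k T : ℝ) : ℝ := ∫ t in (0:ℝ)..T, ‖riemannZeta (pt (1 / 2) t)‖ ^ (2 * k)

lemma moment_le (hzb : S_ZB) (hpw : S_PW) {T k : ℝ} (hT : 1000 ≤ T) (hk : 2 ≤ k)
    (h4 : ∫ t in (0:ℝ)..T, ‖riemannZeta (pt (1 / 2) t)‖ ^ 4 ≤ 4 / 5 * (T * Real.log T ^ 4))
    (hc : 4 * (T / (2 * Real.pi)) ^ (1 / 4 : ℝ) + 1 ≤ Real.log T ^ ((k + 2) / 2)) :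
    MM k T ≤ 4 / 5 * (T * Real.log T ^ (k ^ 2)) := by
  have hT0 : 0 < T := by linarith
  have hl : (69:ℝ) / 10 ≤ Real.log T := log_thousand.trans (Real.log_le_log (by norm_num) hT)
  have hl0 : 0 < Real.log T := by linarith
  have hl1 : 1 ≤ Real.log T := by linarith
  set L := Real.log T ^ ((k + 2) / 2) with hL
  have hL0 : 0 < L := Real.rpow_pos_of_pos hl0 _
  have hL47 : 47 ≤ L := by
    calc (47:ℝ) ≤ (69 / 10) ^ 2 := by norm_num
      _ ≤ Real.log T ^ 2 := by gcongr
      _ = Real.log T ^ (2 : ℝ) := by norm_cast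
      _ ≤ L := Real.rpow_le_rpow_of_exponent_le hl1 (by linarith)
  have hpt : ∀ t ∈ Icc (0:ℝ) T, ‖riemannZeta (pt (1 / 2) t)‖ ≤ L := by
    intro t ht
    rcases le_total t 44 with h | h
    · refine (hzb t).trans ?_
      rw [abs_of_nonneg ht.1]
      linarith
    · refine (hpw t h).trans (le_trans ?_ hc)
      have : (t / (2 * Real.pi)) ^ (1 / 4 : ℝ) ≤ (T / (2 * Real.pi)) ^ (1 / 4 : ℝ) := by
        apply Real.rpow_le_rpow (by positivity) _ (by norm_num)
        have := Real.pi_pos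
        gcongr
        exact ht.2
      linarith
  have h1 : MM k T ≤ ∫ t in (0:ℝ)..T, L ^ (2 * k - 4) * ‖riemannZeta (pt (1 / 2) t)‖ ^ 4 := by
    unfold MM
    apply intervalIntegral.integral_mono_on hT0.le
    · exact (zeta_cont.norm.rpow_const (fun t => Or.inr (by linarith))).intervalIntegrable _ _
    · exact (continuous_const.mul (zeta_cont.norm.pow 4)).intervalIntegrable _ _
    · intro t ht
      set z := ‖riemannZeta (pt (1 / 2) t)‖ with hz
      have hz0 : 0 ≤ z := norm_nonneg _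
      have e : z ^ (2 * k) = z ^ (2 * k - 4) * z ^ 4 := by
        have : z ^ 4 = z ^ (4 : ℝ) := by norm_cast
        rw [this, ← Real.rpow_add_of_nonneg hz0 (by linarith) (by norm_num)]
        congr 1
        ring
      rw [e]
      gcongr
      · linarith
      · exact hpt t ht
  refine h1.trans ?_
  rw [intervalIntegral.integral_const_mul]
  have h2 : L ^ (2 * k - 4) * Real.log T ^ 4 = Real.log T ^ (k ^ 2) := by
    rw [hL, ← Real.rpow_mul hl0.le]
    have : Real.log T ^ 4 = Real.log T ^ (4 : ℝ) := by norm_cast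
    rw [this, ← Real.rpow_add hl0]
    congr 1
    ring
  calc L ^ (2 * k - 4) * ∫ t in (0:ℝ)..T, ‖riemannZeta (pt (1 / 2) t)‖ ^ 4
      ≤ L ^ (2 * k - 4) * (4 / 5 * (T * Real.log T ^ 4)) := by gcongr
    _ = 4 / 5 * (T * (L ^ (2 * k - 4) * Real.log T ^ 4)) := by ring
    _ = _ := by rw [h2]

end

end Pool.Agent.TH158.FM
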