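import Pool.Agent.TH158.FM.Stm3
import Pool.Agent.TH158.FM.Mom

set_option autoImplicit false

/-!
Moments of all orders `2k ≥ 4` from the fourth moment and the pointwise bound.
-/

namespace Pool.Agent.TH158.FM

open Complex MeasureTheory Set

noncomputable section

/-- the pointwise bound at the end of the interval -/
def VV (T : ℝ) : ℝ := 4 * (T / (2 * Real.pi)) ^ (1 / 4 : ℝ) + 1

lemma VV_ge {T : ℝ} (hT : 0 ≤ T) : 1 ≤ VV T := by
  have : 0 ≤ (T / (2 * Real.pi)) ^ (1 / 4 : ℝ) := by positivity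
  unfold VV; linarith

/-- the pointwise bound on `[0, T]`, for `W ≥ 47` -/
lemma sup_le (hzb : S_ZB) (hpw : S_PW) {T W : ℝ} (h47 : 47 ≤ W) (hV : VV T ≤ W) :
    ∀ t ∈ Icc (0:ℝ) T, ‖riemannZeta (pt (1 / 2) t)‖ ≤ W := by
  intro t ht
  rcases le_total t 44 with h | h
  · refine (hzb t).trans ?_
    rw [abs_of_nonneg ht.1]
    linarith
  · refine (hpw t h).trans (le_trans ?_ hV)
    unfold VV
    have : (t / (2 * Real.pi)) ^ (1 / 4 : ℝ) ≤ (T / (2 * Real.pi)) ^ (1 / 4 : ℝ) := by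
      apply Real.rpow_le_rpow (by positivity) _ (by norm_num)
      have := Real.pi_pos
      gcongr
      exact ht.2
    linarith

/-- the general bound -/
lemma moment_gen {T k c W : ℝ} (hT : 1000 ≤ T) (hk : 2 ≤ k) (hW0 : 0 ≤ W)
    (hW : ∀ t ∈ Icc (0:ℝ) T, ‖riemannZeta (pt (1 / 2) t)‖ ≤ W)
    (h4 : ∫ t in (0:ℝ)..T, ‖riemannZeta (pt (1 / 2) t)‖ ^ 4 ≤ c * (T * Real.log T ^ 4)) :
    MM k T ≤ W ^ (2 * k - 4) * (c * (T * Real.log T ^ 4)) := by
  have hT0 : 0 < T := by linarith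
  have h1 : MM k T ≤ ∫ t in (0:ℝ)..T, W ^ (2 * k - 4) * ‖riemannZeta (pt (1 / 2) t)‖ ^ 4 := by
    unfold MM
    apply intervalIntegral.integral_mono_on hT0.le
    · exact (zeta_cont.norm.rpow_const (fun t => Or.inr (by linarith))).intervalIntegrable _ _
    · exact (continuous_const.mul (zeta_cont.norm.pow 4)).intervalIntegrable _ _
    · intro t ht
      set z := ‖riemannZeta (pt (1 / 2) t)‖ with hz
      have hz0 : 0 ≤ z := norm_nonneg _
      have e : z ^ (2 * k) = z ^ (2 * k - 4) * z ^ 4 := by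
        have : z ^ 4 = z ^ (4 : ℝ) := by norm_cast
        rw [this, ← Real.rpow_add_of_nonneg hz0 (by linarith) (by norm_num)]
        congr 1
        ring
      rw [e]
      gcongr
      · linarith
      · exact hW t ht
  refine h1.trans ?_
  rw [intervalIntegral.integral_const_mul]
  gcongr

lemma log_ge {T : ℝ} (hT : 1000 ≤ T) : (69:ℝ) / 10 ≤ Real.log T :=
  log_thousand.trans (Real.log_le_log (by norm_num) hT)

/-- with slack: `VV T ≤ a (log T)²` and `(log a)² ≤ log (1/c) log log T` -/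
lemma moment_slack (hzb : S_ZB) (hpw : S_PW) {T k c0 c a A C L : ℝ} (hT : 1000 ≤ T) (hk : 2 ≤ k)
    (ha : 1 ≤ a) (hc : 0 < c) (hc0 : c0 < c)
    (h4 : ∫ t in (0:ℝ)..T, ‖riemannZeta (pt (1 / 2) t)‖ ^ 4 ≤ c0 * (T * Real.log T ^ 4))
    (hV : VV T ≤ a * Real.log T ^ 2)
    (hA : Real.log a ≤ A) (hC : C ≤ -Real.log c) (hC0 : 0 < C)
    (hL : L ≤ Real.log (Real.log T)) (hAC : A ^ 2 ≤ C * L) :
    MM k T < T * Real.log T ^ (k ^ 2) := by
  have hT0 : 0 < T := by linarith
  have hl := log_ge hT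
  have hl0 : 0 < Real.log T := by linarith
  have hW47 : 47 ≤ a * Real.log T ^ 2 := by
    calc (47:ℝ) ≤ 1 * (69 / 10) ^ 2 := by norm_num
      _ ≤ a * Real.log T ^ 2 := by gcongr
  have h1 := moment_gen hT hk (by linarith) (sup_le hzb hpw hW47 hV) h4
  refine h1.trans_lt ?_
  have ha0 : 0 < a := by linarith
  have h2 : (a * Real.log T ^ 2) ^ (2 * k - 4) * (c0 * (T * Real.log T ^ 4)) <
      (a * Real.log T ^ 2) ^ (2 * k - 4) * (c * (T * Real.log T ^ 4)) := by
    gcongr
  refine h2.trans_le ?_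
  have e1 : (a * Real.log T ^ 2) ^ (2 * k - 4) = a ^ (2 * k - 4) * Real.log T ^ (2 * (2 * k - 4)) := by
    rw [Real.mul_rpow ha0.le (by positivity)]
    congr 1
    rw [Real.rpow_mul hl0.le]
    norm_cast
  have e2 : Real.log T ^ (k ^ 2) =
      Real.log T ^ (2 * (2 * k - 4)) * Real.log T ^ 4 * Real.log T ^ ((k - 2) ^ 2) := by
    have : Real.log T ^ 4 = Real.log T ^ (4 : ℝ) := by norm_cast
    rw [this, ← Real.rpow_add hl0, ← Real.rpow_add hl0]
    congr 1
    ring
  have e3 : c * a ^ (2 * k - 4) ≤ Real.log T ^ ((k - 2) ^ 2) := by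
    rw [Real.rpow_def_of_pos ha0, Real.rpow_def_of_pos hl0]
    nth_rewrite 1 [← Real.exp_log hc]
    rw [← Real.exp_add]
    apply Real.exp_le_exp.2
    set d := k - 2 with hd
    have hd0 : 0 ≤ d := by linarith
    have f1 : Real.log a * (2 * k - 4) ≤ A * (2 * d) := by
      have : 2 * k - 4 = 2 * d := by rw [hd]; ring
      rw [this]
      gcongr
    have f2 : L * d ^ 2 ≤ Real.log (Real.log T) * d ^ 2 := by gcongr
    have f3 : 0 ≤ C * (L * d ^ 2 - A * (2 * d) + C) := by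
      nlinarith [sq_nonneg (d * A - C), mul_nonneg (sq_nonneg d) (sub_nonneg.2 hAC)]
    have f4 : 0 ≤ L * d ^ 2 - A * (2 * d) + C := by
      by_contra hcon
      push Not at hcon
      nlinarith
    linarith
  rw [e1, e2]
  have hp : 0 ≤ T * (Real.log T ^ (2 * (2 * k - 4)) * Real.log T ^ 4) := by positivity
  calc a ^ (2 * k - 4) * Real.log T ^ (2 * (2 * k - 4)) * (c * (T * Real.log T ^ 4))
      = (c * a ^ (2 * k - 4)) * (T * (Real.log T ^ (2 * (2 * k - 4)) * Real.log T ^ 4)) := by ring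
    _ ≤ Real.log T ^ ((k - 2) ^ 2) * (T * (Real.log T ^ (2 * (2 * k - 4)) * Real.log T ^ 4)) := by
        gcongr
    _ = _ := by ring

/-- the region `T ≤ (2 k log k)^(2k)` -/
lemma region {T k : ℝ} (hT : 1000 ≤ T) (hk : 2 ≤ k) (h : T ≤ (2 * k * Real.log k) ^ (2 * k)) :
    VV T ≤ Real.log T ^ ((k + 2) / 2) := by
  have hT0 : 0 < T := by linarith
  have hl := log_ge hT
  set y := Real.log T with hy
  have hy0 : 0 < y := by linarith
  have hlk : Real.log 2 ≤ Real.log k := Real.log_le_log (by norm_num) hk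
  have hl2 := Real.log_two_gt_d9
  set B := 2 * k * Real.log k with hB
  have hBk : k ≤ B := by rw [hB]; nlinarith
  have hB2 : 2 ≤ B := by linarith
  have hB0 : 0 < B := by linarith
  have hlB : Real.log k ≤ Real.log B := Real.log_le_log (by linarith) hBk
  have hyB : y ≤ 2 * k * Real.log B := by
    have := Real.log_le_log hT0 h
    rwa [Real.log_rpow hB0] at this
  -- monotonicity of `log x / x`
  have hexp : Real.exp 1 ≤ y := by have := Real.exp_one_lt_d9; linarith
  have hmono := Real.log_div_self_antitoneOn (Set.mem_ofPred.2 hexp)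
    (Set.mem_ofPred.2 (hexp.trans hyB)) hyB
  simp only at hmono
  have hB3 : Real.log B ≤ Real.log (2 * k * Real.log B) := by
    apply Real.log_le_log hB0
    rw [hB]
    gcongr
  have hlB0 : 0 < Real.log B := by linarith
  have hk0 : 0 < k := by linarith
  have h2 : 1 / (2 * k) ≤ Real.log y / y := by
    refine le_trans ?_ hmono
    rw [div_le_div_iff₀ (by positivity) (by positivity)]
    nlinarith
  have h3 : y ≤ 2 * k * Real.log y := by
    rw [div_le_div_iff₀ (by positivity) hy0] at h2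
    linarith
  have h4 : (1:ℝ) ≤ Real.log y := by
    rw [Real.le_log_iff_exp_le hy0]
    exact hexp
  -- now the inequality
  have h5 : Real.exp (y / 4 + 1) ≤ y ^ ((k + 2) / 2) := by
    rw [Real.rpow_def_of_pos hy0]
    apply Real.exp_le_exp.2
    nlinarith
  refine le_trans ?_ h5
  have hE : Real.exp y = T := Real.exp_log hT0
  have h6 : (T / (2 * Real.pi)) ^ (1 / 4 : ℝ) ≤ Real.exp (y / 4) * (632 / 1000) := by
    rw [Real.div_rpow hT0.le (by positivity)]
    have e1 : T ^ (1 / 4 : ℝ) = Real.exp (y / 4) := by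
      rw [Real.rpow_def_of_pos hT0]; congr 1; ring
    rw [e1, div_eq_mul_inv]
    gcongr
    rw [← Real.inv_rpow (by positivity)]
    have h7 : (2 * Real.pi)⁻¹ ≤ (632 / 1000 : ℝ) ^ (4 : ℝ) := by
      have : (632 / 1000 : ℝ) ^ (4 : ℝ) = (632 / 1000) ^ 4 := by norm_cast
      rw [this]
      have hpi := Real.pi_gt_d2
      rw [inv_le_comm₀ (by positivity) (by positivity)]
      refine le_trans ?_ (by linarith : (2 * 3.14 : ℝ) ≤ 2 * Real.pi)
      norm_num
    calc ((2 * Real.pi)⁻¹) ^ (1 / 4 : ℝ) ≤ ((632 / 1000 : ℝ) ^ (4 : ℝ)) ^ (1 / 4 : ℝ) := by gcongr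
      _ = 632 / 1000 := by
        rw [← Real.rpow_mul (by norm_num)]
        norm_num
  have h9 : (54 / 10:ℝ) ≤ Real.exp (y / 4) := by
    have h10 : Real.exp (1725 / 1000) ≤ Real.exp (y / 4) := Real.exp_le_exp.2 (by linarith)
    refine le_trans ?_ h10
    have := Real.exp_one_gt_d9
    have h11 : Real.exp (1725 / 1000) = Real.exp 1 * Real.exp (725 / 1000) := by
      rw [← Real.exp_add]; norm_num
    rw [h11]
    have h12 : (1:ℝ) + 725 / 1000 + (725 / 1000) ^ 2 / 2 ≤ Real.exp (725 / 1000) :=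
      Real.quadratic_le_exp_of_nonneg (by norm_num)
    calc (54 / 10:ℝ) ≤ 2.7182818283 * (1 + 725 / 1000 + (725 / 1000) ^ 2 / 2) := by norm_num
      _ ≤ _ := by gcongr
  unfold VV
  rw [Real.exp_add]
  have hx := Real.exp_one_gt_d9
  nlinarith [Real.exp_pos (y / 4)]

end

end Pool.Agent.TH158.FM
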