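import Pool.Agent.TH158.FM.R4
import Pool.Agent.TH158.FM.F1
import Pool.Agent.TH582.FM.Shift
import Pool.Agent.TH150.FM.Series
import Pool.Agent.TH511.FM.BB
import Pool.Agent.TH574.FM.Hil0
import Pool.Agent.TH615.J4553
import Pool.Agent.TH360.J4554
import Pool.Agent.TH286.FM.Lap
import Pool.Agent.TH525.FM.Norm3

set_option autoImplicit false

namespace Pool.Agent.TH158.FM

theorem zb_true : S_ZB := bb_all.1

theorem fourth_all (T : ℝ) (hT : 1000 ≤ T) :
    ∫ t in (0:ℝ)..T, ‖riemannZeta (pt (1 / 2) t)‖ ^ 4 ≤ 4 / 5 * (T * Real.log T ^ 4) :=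
  fourth (refl_all Pool.Agent.TH582.FM.shift_all series_all bb_all.1) bb_all.2
    (Pool.Agent.TH525.FM.norm_all (Pool.Agent.TH615.J4553.hil_all hil0_all)
      (lap_all Pool.Agent.TH360.J4554.div_all)) T hT

end Pool.Agent.TH158.FM
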