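import Pool.Agent.TH158.FM.Stm

set_option autoImplicit false

namespace Pool.Agent.TH158.FM

open Complex MeasureTheory Set

noncomputable section

lemma pt_re (σ t : ℝ) : (pt σ t).re = σ := by simp [pt]
lemma pt_im (σ t : ℝ) : (pt σ t).im = t := by simp [pt]

lemma pt_half (t : ℝ) : pt (1 / 2) t = 1 / 2 + (t : ℂ) * I := by
  unfold pt
  push_cast
  ring

lemma one_sub_pt (t : ℝ) : 1 - pt (1 / 2) t = (starRingEnd ℂ) (pt (1 / 2) t) := by
  apply Complex.ext <;> simp [pt] <;> norm_num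

lemma sin_pi_pt (t : ℝ) : Complex.sin (Real.pi * pt (1 / 2) t) = (Real.cosh (Real.pi * t) : ℂ) := by
  have : (Real.pi : ℂ) * pt (1 / 2) t = Real.pi / 2 + ((Real.pi * t : ℝ) : ℂ) * I := by
    rw [pt_half]; push_cast; ring
  rw [this, Complex.sin_add, Complex.sin_pi_div_two, Complex.cos_pi_div_two, Complex.cos_mul_I]
  push_cast
  ring

lemma Gamma_sq (t : ℝ) : ‖Complex.Gamma (pt (1 / 2) t)‖ ^ 2 = Real.pi / Real.cosh (Real.pi * t) := by
  have h := Complex.Gamma_mul_Gamma_one_sub (pt (1 / 2) t)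
  rw [one_sub_pt, Complex.Gamma_conj, sin_pi_pt, Complex.mul_conj] at h
  rw [← Complex.normSq_eq_norm_sq]
  exact_mod_cast h

lemma exp_sq (δ t : ℝ) : ‖Complex.exp (-(((Real.pi / 2 - δ : ℝ) : ℂ) * I) * pt (1 / 2) t)‖ ^ 2 =
    Real.exp ((Real.pi - 2 * δ) * t) := by
  rw [Complex.norm_exp, ← Real.exp_nat_mul]
  congr 1
  have : (-(((Real.pi / 2 - δ : ℝ) : ℂ) * I) * pt (1 / 2) t).re = (Real.pi / 2 - δ) * t := by
    simp [pt]
  rw [this]
  push_cast
  ring

lemma GG_sq (δ t : ℝ) : ‖GG δ (pt (1 / 2) t)‖ ^ 2 =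
    2 * Real.pi * (‖riemannZeta (pt (1 / 2) t)‖ ^ 4 *
      (Real.exp (-(2 * δ * t)) / (1 + Real.exp (-(2 * Real.pi * t))))) := by
  unfold GG
  rw [norm_mul, norm_mul, mul_pow, mul_pow, Gamma_sq, exp_sq, norm_pow, Real.cosh_eq]
  have e1 : Real.exp ((Real.pi - 2 * δ) * t) = Real.exp (Real.pi * t) * Real.exp (-(2 * δ * t)) := by
    rw [← Real.exp_add]; congr 1; ring
  have e2 : Real.exp (-(2 * Real.pi * t)) = Real.exp (-(Real.pi * t)) * Real.exp (-(Real.pi * t)) := by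
    rw [← Real.exp_add]; congr 1; ring
  have e3 : Real.exp (Real.pi * t) * Real.exp (-(Real.pi * t)) = 1 := by
    rw [← Real.exp_add]; simp
  rw [e1, e2]
  have p1 := Real.exp_pos (Real.pi * t)
  have p2 := Real.exp_pos (-(Real.pi * t))
  set a := Real.exp (Real.pi * t)
  set b := Real.exp (-(Real.pi * t))
  have hne : a + b ≠ 0 := by positivity
  have hne2 : 1 + b * b ≠ 0 := by positivity
  field_simp
  linear_combination e3 * (‖riemannZeta (pt (1 / 2) t)‖ ^ 4 * b)

/-- the functional equation for `GG` on the critical line -/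
lemma GG_fe (δ t : ℝ) : GG δ (pt (1 / 2) t) * Complex.cos (Real.pi * pt (1 / 2) t / 2) =
    Complex.exp (-(((Real.pi / 2 - δ : ℝ) : ℂ) * I)) * Complex.sin (Real.pi * pt (1 / 2) t / 2) *
      Complex.exp (((2 * Real.log (2 * Real.pi) * t : ℝ) : ℂ) * I) *
      (starRingEnd ℂ) (GG δ (pt (1 / 2) t)) := by
  set s := pt (1 / 2) t with hs
  have hs1 : s ≠ 1 := by
    intro h
    have := congrArg Complex.re h
    rw [hs, pt_re] at this
    norm_num at this
  have hsn : ∀ n : ℕ, s ≠ -n := by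
    intro n h
    have := congrArg Complex.re h
    rw [hs, pt_re] at this
    simp at this
    have hn : (0:ℝ) ≤ n := Nat.cast_nonneg n
    linarith
  have fe := riemannZeta_one_sub hsn hs1
  have hg := Complex.Gamma_mul_Gamma_one_sub s
  have hc : (starRingEnd ℂ) s = 1 - s := (one_sub_pt t).symm
  have hsin : Complex.sin (Real.pi * s) ≠ 0 := by
    rw [hs, sin_pi_pt]
    exact_mod_cast (Real.cosh_pos _).ne'
  have hpi : (Real.pi : ℂ) ≠ 0 := by exact_mod_cast Real.pi_ne_zero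
  have h2 : Complex.sin (Real.pi * s) =
      2 * Complex.sin (Real.pi * s / 2) * Complex.cos (Real.pi * s / 2) := by
    rw [← Complex.sin_two_mul]; congr 1; ring
  have hz : (starRingEnd ℂ) (riemannZeta s) = riemannZeta (1 - s) := by
    rw [← hc]
    exact (riemannZeta_conj s).symm
  have he : (starRingEnd ℂ) (Complex.exp (-(((Real.pi / 2 - δ : ℝ) : ℂ) * I) * s)) =
      Complex.exp ((((Real.pi / 2 - δ : ℝ) : ℂ) * I) * (1 - s)) := by
    rw [← Complex.exp_conj, map_mul, map_neg, map_mul, Complex.conj_ofReal, Complex.conj_I, hc]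
    congr 1
    ring
  have hpow : Complex.exp (((2 * Real.log (2 * Real.pi) * t : ℝ) : ℂ) * I) *
      ((2 * (Real.pi : ℂ)) ^ (-s)) ^ 2 = (2 * (Real.pi : ℂ))⁻¹ := by
    have h2pi : (2 * (Real.pi : ℂ)) = ((2 * Real.pi : ℝ) : ℂ) := by push_cast; ring
    have h2ne : (2 * (Real.pi : ℂ)) ≠ 0 := by simp [Real.pi_ne_zero]
    rw [Complex.cpow_def_of_ne_zero h2ne, ← Complex.exp_nat_mul, ← Complex.exp_add]
    have hl : Complex.log (2 * (Real.pi : ℂ)) = (Real.log (2 * Real.pi) : ℂ) := by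
      rw [h2pi, Complex.ofReal_log (by positivity)]
    rw [hl]
    have : (((2 * Real.log (2 * Real.pi) * t : ℝ) : ℂ) * I) + ((2:ℕ):ℂ) * ((Real.log (2 * Real.pi) : ℂ) * -s) =
        -(Real.log (2 * Real.pi) : ℂ) := by
      rw [hs, pt_half]
      push_cast
      ring
    rw [this, Complex.exp_neg, ← hl, Complex.exp_log h2ne]
  unfold GG
  rw [map_mul, map_mul, map_pow, ← Complex.Gamma_conj, hc, hz, fe, he]
  have hE : Complex.exp (-(((Real.pi / 2 - δ : ℝ) : ℂ) * I)) *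
      Complex.exp ((((Real.pi / 2 - δ : ℝ) : ℂ) * I) * (1 - s)) =
      Complex.exp (-(((Real.pi / 2 - δ : ℝ) : ℂ) * I) * s) := by
    rw [← Complex.exp_add]; congr 1; ring
  rw [← hE]
  have hG' : Complex.Gamma s * Complex.Gamma (1 - s) * Complex.sin (Real.pi * s) = Real.pi := by
    rw [hg]; field_simp
  rw [h2] at hG'
  set A := Complex.exp (-(((Real.pi / 2 - δ : ℝ) : ℂ) * I))
  set A' := Complex.exp ((((Real.pi / 2 - δ : ℝ) : ℂ) * I) * (1 - s))
  set E := Complex.exp (((2 * Real.log (2 * Real.pi) * t : ℝ) : ℂ) * I)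
  set p := (2 * (Real.pi : ℂ)) ^ (-s)
  set g := Complex.Gamma s
  set g' := Complex.Gamma (1 - s)
  set z := riemannZeta s
  set si := Complex.sin (Real.pi * s / 2)
  set co := Complex.cos (Real.pi * s / 2)
  calc g * z ^ 2 * (A * A') * co
      = g * z ^ 2 * (A * A') * co * ((2 * (Real.pi : ℂ))⁻¹ * 2 * (Real.pi : ℂ)) := by field_simp
    _ = g * z ^ 2 * (A * A') * co * ((E * p ^ 2) * 2 * (g * g' * (2 * si * co))) := by
        rw [hpow, hG']
    _ = A * si * E * (g' * (2 * p * g * co * z) ^ 2 * A') := by ring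

end

end Pool.Agent.TH158.FM
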