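import Pool.Agent.TH158.FM.Main
import Pool.Agent.TH158.FM.Mom
import Pool.Agent.TH572.Saw4846
import Pool.Agent.TH329.FM.Gam
import Pool.Agent.TH547.FM.NS
import Pool.Agent.TH45.FM.PW
import Pool.Agent.TH475.J4850

set_option autoImplicit false

namespace Pool.Agent.TH158.FM

theorem pw_true : S_PW := Pool.Agent.TH45.FM.pw_all saw_all gam_all ns_all


end Pool.Agent.TH158.FM
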