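import Pool.Agent.TH158.FM.R1
import Pool.Agent.TH794.QD.Planch

set_option autoImplicit false

namespace Pool.Agent.TH158.FM

open Complex MeasureTheory Set FourierTransform
open scoped ENNReal

noncomputable section

/-- the function on the critical line -/
def Gl (δ t : ℝ) : ℂ := GG δ (pt (1 / 2) t)

/-- the reflected difference -/
def Pl (δ t : ℝ) : ℂ := Gl δ t - I * Complex.exp (-(((Real.pi / 2 - δ : ℝ) : ℂ) * I)) *
  Complex.exp (((2 * Real.log (2 * Real.pi) * t : ℝ) : ℂ) * I) * (starRingEnd ℂ) (Gl δ t)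

lemma pt_cont : Continuous (fun t : ℝ => pt (1 / 2) t) := by unfold pt; fun_prop

lemma Gl_cont (δ : ℝ) : Continuous (Gl δ) := by
  rw [continuous_iff_continuousAt]
  intro t
  have hs1 : pt (1 / 2) t ≠ 1 := by
    intro h
    have := congrArg Complex.re h
    rw [pt_re] at this
    norm_num at this
  have hsn : ∀ n : ℕ, pt (1 / 2) t ≠ -n := by
    intro n h
    have := congrArg Complex.re h
    rw [pt_re] at this
    simp at this
    have hn : (0:ℝ) ≤ n := Nat.cast_nonneg n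
    linarith
  have c0 : ContinuousAt (fun t : ℝ => pt (1 / 2) t) t := pt_cont.continuousAt
  have c1 : ContinuousAt (fun t : ℝ => Complex.Gamma (pt (1 / 2) t)) t :=
    ContinuousAt.comp (f := fun t : ℝ => pt (1 / 2) t) (g := Complex.Gamma)
      (Complex.differentiableAt_Gamma _ hsn).continuousAt c0
  have c2 : ContinuousAt (fun t : ℝ => riemannZeta (pt (1 / 2) t)) t :=
    ContinuousAt.comp (f := fun t : ℝ => pt (1 / 2) t) (g := riemannZeta)
      (differentiableAt_riemannZeta hs1).continuousAt c0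
  have c3 : ContinuousAt (fun t : ℝ => Complex.exp (-(((Real.pi / 2 - δ : ℝ) : ℂ) * I) * pt (1 / 2) t)) t := by
    have : Continuous (fun t : ℝ => Complex.exp (-(((Real.pi / 2 - δ : ℝ) : ℂ) * I) * pt (1 / 2) t)) := by
      have := pt_cont
      fun_prop
    exact this.continuousAt
  exact (c1.mul (c2.pow 2)).mul c3

lemma Pl_cont (δ : ℝ) : Continuous (Pl δ) := by
  have := Gl_cont δ
  unfold Pl
  have h2 : Continuous (fun t => (starRingEnd ℂ) (Gl δ t)) := Complex.continuous_conj.comp this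
  fun_prop

lemma sin_half_sq (t : ℝ) : ‖Complex.sin (Real.pi * pt (1 / 2) t / 2)‖ ^ 2 = Real.cosh (Real.pi * t) / 2 := by
  have e : (Real.pi : ℂ) * pt (1 / 2) t / 2 = ((Real.pi / 4 : ℝ) : ℂ) + ((Real.pi * t / 2 : ℝ) : ℂ) * I := by
    rw [pt_half]; push_cast; ring
  rw [e, Complex.sin_add_mul_I, ← Complex.ofReal_sin, ← Complex.ofReal_cos, ← Complex.ofReal_sinh,
    ← Complex.ofReal_cosh, Real.sin_pi_div_four, Real.cos_pi_div_four, ← Complex.normSq_eq_norm_sq]
  have : (((Real.sqrt 2 / 2 : ℝ) : ℂ) * (Real.cosh (Real.pi * t / 2) : ℂ) +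
      ((Real.sqrt 2 / 2 : ℝ) : ℂ) * (Real.sinh (Real.pi * t / 2) : ℂ) * I) =
      ((Real.sqrt 2 / 2 * Real.cosh (Real.pi * t / 2) : ℝ) : ℂ) +
      ((Real.sqrt 2 / 2 * Real.sinh (Real.pi * t / 2) : ℝ) : ℂ) * I := by push_cast; ring
  rw [this, Complex.normSq_add_mul_I]
  have e2 : Real.pi * t = 2 * (Real.pi * t / 2) := by ring
  rw [e2, Real.cosh_two_mul, ← e2]
  have h2 : Real.sqrt 2 ^ 2 = 2 := Real.sq_sqrt (by norm_num)
  linear_combination (Real.cosh (Real.pi * t / 2) ^ 2 + Real.sinh (Real.pi * t / 2) ^ 2) / 4 * h2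

/-- the size of the reflected difference -/
lemma Pl_sq (δ t : ℝ) : ‖Pl δ t‖ ^ 2 = 2 * Real.pi * (‖riemannZeta (pt (1 / 2) t)‖ ^ 4 *
    (Real.exp (-(2 * δ * t)) / Real.cosh (Real.pi * t) ^ 2)) := by
  have fe := GG_fe δ t
  have key : Complex.sin (Real.pi * pt (1 / 2) t / 2) * Pl δ t =
      -I * Complex.exp ((Real.pi * pt (1 / 2) t / 2) * I) * Gl δ t := by
    rw [Complex.exp_mul_I]
    unfold Pl Gl
    have : Complex.sin (Real.pi * pt (1 / 2) t / 2) * (GG δ (pt (1 / 2) t) -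
        I * Complex.exp (-(((Real.pi / 2 - δ : ℝ) : ℂ) * I)) *
        Complex.exp (((2 * Real.log (2 * Real.pi) * t : ℝ) : ℂ) * I) * (starRingEnd ℂ) (GG δ (pt (1 / 2) t))) =
        Complex.sin (Real.pi * pt (1 / 2) t / 2) * GG δ (pt (1 / 2) t) -
        I * (GG δ (pt (1 / 2) t) * Complex.cos (Real.pi * pt (1 / 2) t / 2)) := by
      rw [fe]; ring
    rw [this]
    have hI : I * I = -1 := Complex.I_mul_I
    linear_combination (Complex.sin (Real.pi * pt (1 / 2) t / 2) * GG δ (pt (1 / 2) t)) * hI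
  have h1 := congrArg (fun z => ‖z‖ ^ 2) key
  simp only [norm_mul, mul_pow, norm_neg, Complex.norm_I, one_pow, one_mul] at h1
  have hGl : ‖Gl δ t‖ ^ 2 = _ := GG_sq δ t
  rw [sin_half_sq, hGl] at h1
  have hE : ‖Complex.exp ((Real.pi * pt (1 / 2) t / 2) * I)‖ ^ 2 = Real.exp (-(Real.pi * t)) := by
    rw [Complex.norm_exp, ← Real.exp_nat_mul]
    congr 1
    have : ((Real.pi * pt (1 / 2) t / 2) * I).re = -(Real.pi * t / 2) := by
      rw [pt_half]
      simp
    rw [this]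
    push_cast
    ring
  rw [hE] at h1
  have hc := Real.cosh_pos (Real.pi * t)
  have h2 : ‖Pl δ t‖ ^ 2 = 2 / Real.cosh (Real.pi * t) * (Real.cosh (Real.pi * t) / 2 * ‖Pl δ t‖ ^ 2) := by
    field_simp
  rw [h2, h1, Real.cosh_eq]
  have e2 : Real.exp (-(2 * Real.pi * t)) = Real.exp (-(Real.pi * t)) * Real.exp (-(Real.pi * t)) := by
    rw [← Real.exp_add]; congr 1; ring
  have e3 : Real.exp (Real.pi * t) * Real.exp (-(Real.pi * t)) = 1 := by
    rw [← Real.exp_add]; simp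
  rw [e2]
  have p1 := Real.exp_pos (Real.pi * t)
  have p2 := Real.exp_pos (-(Real.pi * t))
  set a := Real.exp (Real.pi * t)
  set b := Real.exp (-(Real.pi * t))
  have hne : a + b ≠ 0 := by positivity
  have hne2 : 1 + b * b ≠ 0 := by positivity
  field_simp
  linear_combination (‖riemannZeta (pt (1 / 2) t)‖ ^ 4) * e3

end

end Pool.Agent.TH158.FM
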