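import Pool.Agent.TH158.FM.R2

set_option autoImplicit false

namespace Pool.Agent.TH158.FM

open Complex MeasureTheory Set FourierTransform
open scoped ENNReal

noncomputable section

/-- majorant -/
lemma Gl_bound (h3 : S_ZB) {δ : ℝ} (hδ : 0 < δ) (hδ2 : δ < Real.pi / 2) :
    ∃ K : ℝ, 0 < K ∧ ∀ t : ℝ, ‖Gl δ t‖ ≤ K * (1 + t ^ 2)⁻¹ := by
  set K0 : ℝ := 24 / δ ^ 4 * Real.exp (3 * δ) with hK0
  have hK0p : 0 < K0 := by positivity
  refine ⟨3 * K0, by positivity, fun t => ?_⟩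
  have hpi := Real.pi_pos
  have hpi4 : Real.pi < 4 := Real.pi_lt_four
  -- pointwise square bound
  have hsq : ‖Gl δ t‖ ^ 2 ≤ 8 * ((3 + |t|) ^ 4 * Real.exp (-(2 * δ * |t|))) := by
    have e := GG_sq δ t
    have hG : ‖Gl δ t‖ = ‖GG δ (pt (1 / 2) t)‖ := rfl
    rw [hG, e]
    have z4 : ‖riemannZeta (pt (1 / 2) t)‖ ^ 4 ≤ (3 + |t|) ^ 4 := by
      have := h3 t
      gcongr
    have w : Real.exp (-(2 * δ * t)) / (1 + Real.exp (-(2 * Real.pi * t))) ≤ Real.exp (-(2 * δ * |t|)) := by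
      rcases le_total 0 t with ht | ht
      · rw [abs_of_nonneg ht]
        apply div_le_self (Real.exp_pos _).le
        linarith [Real.exp_pos (-(2 * Real.pi * t))]
      · rw [abs_of_nonpos ht, div_le_iff₀ (by positivity)]
        have : Real.exp (-(2 * δ * t)) ≤ Real.exp (-(2 * δ * -t)) * Real.exp (-(2 * Real.pi * t)) := by
          rw [← Real.exp_add]
          apply Real.exp_le_exp.2
          nlinarith
        nlinarith [Real.exp_pos (-(2 * δ * -t))]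
    have w0 : 0 ≤ Real.exp (-(2 * δ * t)) / (1 + Real.exp (-(2 * Real.pi * t))) := by positivity
    calc 2 * Real.pi * (‖riemannZeta (pt (1 / 2) t)‖ ^ 4 *
        (Real.exp (-(2 * δ * t)) / (1 + Real.exp (-(2 * Real.pi * t)))))
        ≤ 8 * ((3 + |t|) ^ 4 * Real.exp (-(2 * δ * |t|))) := by
          gcongr
          linarith
      _ = _ := rfl
  have hexp : (3 + |t|) ^ 4 * Real.exp (-(δ * |t|)) ≤ K0 := by
    have h1 := Real.pow_div_factorial_le_exp (δ * (3 + |t|)) (by positivity) 4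
    have h2 : Real.exp (δ * (3 + |t|)) = Real.exp (3 * δ) * Real.exp (δ * |t|) := by
      rw [← Real.exp_add]; congr 1; ring
    rw [h2] at h1
    have h4 : Real.exp (-(δ * |t|)) * Real.exp (δ * |t|) = 1 := by rw [← Real.exp_add]; simp
    have hf : ((4 : ℕ).factorial : ℝ) = 24 := by norm_num [Nat.factorial]
    rw [hf, mul_pow] at h1
    have h5 : (3 + |t|) ^ 4 ≤ 24 / δ ^ 4 * (Real.exp (3 * δ) * Real.exp (δ * |t|)) := by
      rw [div_le_iff₀ (by norm_num)] at h1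
      rw [div_mul_eq_mul_div, le_div_iff₀ (by positivity)]
      linarith
    calc (3 + |t|) ^ 4 * Real.exp (-(δ * |t|))
        ≤ 24 / δ ^ 4 * (Real.exp (3 * δ) * Real.exp (δ * |t|)) * Real.exp (-(δ * |t|)) := by gcongr
      _ = K0 * (Real.exp (-(δ * |t|)) * Real.exp (δ * |t|)) := by rw [hK0]; ring
      _ = K0 := by rw [h4, mul_one]
  have h8 : ‖Gl δ t‖ ^ 2 * (1 + t ^ 2) ^ 2 ≤ (3 * K0) ^ 2 := by
    have a1 : 1 + t ^ 2 ≤ (3 + |t|) ^ 2 := by nlinarith [sq_abs t, abs_nonneg t]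
    have a2 : (1 + t ^ 2) ^ 2 ≤ (3 + |t|) ^ 4 := by
      calc (1 + t ^ 2) ^ 2 ≤ ((3 + |t|) ^ 2) ^ 2 := by gcongr
        _ = (3 + |t|) ^ 4 := by ring
    have e5 : Real.exp (-(2 * δ * |t|)) = Real.exp (-(δ * |t|)) * Real.exp (-(δ * |t|)) := by
      rw [← Real.exp_add]; congr 1; ring
    calc ‖Gl δ t‖ ^ 2 * (1 + t ^ 2) ^ 2
        ≤ (8 * ((3 + |t|) ^ 4 * Real.exp (-(2 * δ * |t|)))) * (3 + |t|) ^ 4 := by gcongr
      _ = 8 * ((3 + |t|) ^ 4 * Real.exp (-(δ * |t|))) ^ 2 := by rw [e5]; ring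
      _ ≤ 8 * K0 ^ 2 := by gcongr
      _ ≤ (3 * K0) ^ 2 := by nlinarith
  have h9 : ‖Gl δ t‖ * (1 + t ^ 2) ≤ 3 * K0 := by
    rw [← mul_pow] at h8
    exact le_of_sq_le_sq h8 (by positivity)
  rw [← div_eq_mul_inv, le_div_iff₀ (by positivity)]
  exact h9

lemma Pl_le (δ t : ℝ) : ‖Pl δ t‖ ≤ 2 * ‖Gl δ t‖ := by
  unfold Pl
  refine (norm_sub_le _ _).trans ?_
  have h1 : ‖Complex.exp (-(((Real.pi / 2 - δ : ℝ) : ℂ) * I))‖ = 1 := by
    rw [Complex.norm_exp]; simp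
  have h2 : ‖Complex.exp (((2 * Real.log (2 * Real.pi) * t : ℝ) : ℂ) * I)‖ = 1 :=
    Complex.norm_exp_ofReal_mul_I _
  rw [norm_mul, norm_mul, norm_mul, h1, h2, Complex.norm_I, RCLike.norm_conj]
  linarith

lemma int_of {f : ℝ → ℂ} (hf : Continuous f) {K : ℝ} (hb : ∀ t, ‖f t‖ ≤ K * (1 + t ^ 2)⁻¹) :
    Integrable f ∧ MemLp f 2 := by
  have h1 : Integrable f := (integrable_inv_one_add_sq.const_mul K).mono' hf.aestronglyMeasurable
    (Filter.Eventually.of_forall hb)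
  refine ⟨h1, ?_⟩
  rw [memLp_two_iff_integrable_sq_norm hf.aestronglyMeasurable]
  have hK : 0 ≤ K := by
    have := (norm_nonneg _).trans (hb 0)
    simpa using this
  refine (integrable_inv_one_add_sq.const_mul (K ^ 2)).mono' (by fun_prop)
    (Filter.Eventually.of_forall fun t => ?_)
  rw [Real.norm_of_nonneg (by positivity)]
  have h2 : (1 + t ^ 2)⁻¹ ≤ 1 := inv_le_one_of_one_le₀ (by nlinarith [sq_nonneg t])
  calc ‖f t‖ ^ 2 ≤ (K * (1 + t ^ 2)⁻¹) ^ 2 := by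
        have := hb t
        gcongr
    _ = K ^ 2 * (1 + t ^ 2)⁻¹ * (1 + t ^ 2)⁻¹ := by ring
    _ ≤ K ^ 2 * (1 + t ^ 2)⁻¹ * 1 := by gcongr
    _ = _ := mul_one _

/-- the Fourier transform of `Gl` -/
lemma four_Gl (h1 : S_SHIFT) (h2 : S_SERIES) {δ : ℝ} (hδ : 0 < δ) (hδ2 : δ < Real.pi / 2) (ξ : ℝ) :
    𝓕 (Gl δ) ξ = (Real.exp (Real.pi * ξ) : ℂ) * (2 * Real.pi * (FF δ (Real.exp (2 * Real.pi * ξ)) -
      PP δ (Real.exp (2 * Real.pi * ξ)))) := by
  have hx : 0 < Real.exp (2 * Real.pi * ξ) := Real.exp_pos _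
  have e1 := h1 δ hδ hδ2 _ hx
  rw [h2 δ hδ hδ2 _ hx] at e1
  have e2 : (2 * Real.pi * (FF δ (Real.exp (2 * Real.pi * ξ)) - PP δ (Real.exp (2 * Real.pi * ξ))) : ℂ) =
      ∫ t : ℝ, GG δ (pt (1 / 2) t) * ((Real.exp (2 * Real.pi * ξ) : ℝ) : ℂ) ^ (-(pt (1 / 2) t)) := by
    rw [e1]; ring
  rw [e2, Real.fourier_eq', ← integral_const_mul]
  refine integral_congr_ae (Filter.Eventually.of_forall fun t => ?_)
  simp only [smul_eq_mul]
  have e3 : ((Real.exp (2 * Real.pi * ξ) : ℝ) : ℂ) ^ (-(pt (1 / 2) t)) =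
      Complex.exp (-(Real.pi * ξ : ℝ)) * Complex.exp ((-2 * Real.pi * (t * ξ) : ℝ) * I) := by
    have hne : ((Real.exp (2 * Real.pi * ξ) : ℝ) : ℂ) ≠ 0 := by exact_mod_cast hx.ne'
    rw [Complex.cpow_def_of_ne_zero hne, ← Complex.ofReal_log hx.le, Real.log_exp, ← Complex.exp_add]
    congr 1
    rw [pt_half]
    push_cast
    ring
  rw [e3]
  have e4 : (Real.exp (Real.pi * ξ) : ℂ) * Complex.exp (-(Real.pi * ξ : ℝ)) = 1 := by
    rw [Complex.ofReal_exp, ← Complex.exp_add]; simp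
  have e5 : (inner ℝ t ξ : ℝ) = t * ξ := by simp [mul_comm]
  rw [e5]
  unfold Gl
  calc Complex.exp ((-2 * Real.pi * (t * ξ) : ℝ) * I) * GG δ (pt (1 / 2) t)
      = ((Real.exp (Real.pi * ξ) : ℂ) * Complex.exp (-(Real.pi * ξ : ℝ))) *
        (Complex.exp ((-2 * Real.pi * (t * ξ) : ℝ) * I) * GG δ (pt (1 / 2) t)) := by rw [e4, one_mul]
    _ = _ := by ring

lemma int_exp {f : ℝ → ℂ} (hf : Integrable f) {φ : ℝ → ℝ} (hφ : Continuous φ) :
    Integrable (fun t => Complex.exp ((φ t : ℝ) * I) • f t) := by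
  refine hf.norm.mono' ?_ (Filter.Eventually.of_forall fun t => ?_)
  · exact (by fun_prop : Continuous fun t => Complex.exp ((φ t : ℝ) * I)).aestronglyMeasurable.smul
      hf.aestronglyMeasurable
  · rw [norm_smul, Complex.norm_exp_ofReal_mul_I, one_mul]

/-- the Fourier transform of the difference -/
lemma four_Pl {δ : ℝ} (hG : Integrable (Gl δ)) (ξ : ℝ) :
    𝓕 (Pl δ) ξ = 𝓕 (Gl δ) ξ - I * Complex.exp (-(((Real.pi / 2 - δ : ℝ) : ℂ) * I)) *
      (starRingEnd ℂ) (𝓕 (Gl δ) (Real.log (2 * Real.pi) / Real.pi - ξ)) := by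
  have hc : Integrable (fun t => (starRingEnd ℂ) (Gl δ t)) :=
    (Complex.conjLIE.integrable_comp_iff (φ := Gl δ)).2 hG
  set c0 : ℂ := I * Complex.exp (-(((Real.pi / 2 - δ : ℝ) : ℂ) * I)) with hc0
  rw [Real.fourier_eq', Real.fourier_eq', Real.fourier_eq']
  rw [← integral_conj, ← integral_const_mul, ← integral_sub]
  · refine integral_congr_ae (Filter.Eventually.of_forall fun t => ?_)
    simp only [smul_eq_mul]
    unfold Pl
    rw [← hc0, map_mul, ← Complex.exp_conj, map_mul, Complex.conj_ofReal, Complex.conj_I]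
    have e5 : (inner ℝ t ξ : ℝ) = t * ξ := by simp [mul_comm]
    have e6 : (inner ℝ t (Real.log (2 * Real.pi) / Real.pi - ξ) : ℝ) =
      t * (Real.log (2 * Real.pi) / Real.pi - ξ) := by simp [mul_comm]
    rw [e5, e6, mul_sub]
    congr 1
    have e7 : Complex.exp ((-2 * Real.pi * (t * (Real.log (2 * Real.pi) / Real.pi - ξ)) : ℝ) * -I) =
        Complex.exp ((-2 * Real.pi * (t * ξ) : ℝ) * I) *
        Complex.exp (((2 * Real.log (2 * Real.pi) * t : ℝ) : ℂ) * I) := by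
      rw [← Complex.exp_add]
      congr 1
      have hpi : (Real.pi : ℂ) ≠ 0 := by exact_mod_cast Real.pi_ne_zero
      push_cast
      field_simp
      ring
    rw [e7]
    ring
  · exact int_exp hG (continuous_const.mul (continuous_id.inner continuous_const))
  · have h := (int_exp hG (φ := fun t => -2 * Real.pi *
      (inner ℝ t (Real.log (2 * Real.pi) / Real.pi - ξ) : ℝ))
      (continuous_const.mul (continuous_id.inner continuous_const)))
    exact ((Complex.conjLIE.integrable_comp_iff (φ := _)).2 h).const_mul c0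

end

end Pool.Agent.TH158.FM
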