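import Pool.Agent.TH158.FM.R3

set_option autoImplicit false

namespace Pool.Agent.TH158.FM

open Complex MeasureTheory Set FourierTransform
open scoped ENNReal

noncomputable section

lemma en2 (g : ℝ → ℂ) (μ : Measure ℝ) : eLpNorm g 2 μ ^ 2 = ∫⁻ x, ‖g x‖ₑ ^ 2 ∂μ := by
  rw [eLpNorm_eq_lintegral_rpow_enorm_toReal (by norm_num) (by norm_num)]
  rw [← ENNReal.rpow_natCast, ← ENNReal.rpow_mul]
  norm_num

lemma enorm_sq (z : ℂ) : ‖z‖ₑ ^ 2 = ENNReal.ofReal (‖z‖ ^ 2) := by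
  rw [← ofReal_norm, ← ENNReal.ofReal_pow (norm_nonneg _)]

lemma four_cont {f : ℝ → ℂ} (hf : Integrable f) : Continuous (𝓕 f) :=
  VectorFourier.fourierIntegral_continuous Real.continuous_fourierChar (by exact continuous_inner) hf

/-- change of variables -/
lemma part_right (h1 : S_SHIFT) (h2 : S_SERIES) {δ : ℝ} (hδ : 0 < δ) (hδ2 : δ < Real.pi / 2) :
    ∫⁻ ξ in Ioi (Real.log (2 * Real.pi) / (2 * Real.pi)), ‖𝓕 (Gl δ) ξ‖ₑ ^ 2 =
      ENNReal.ofReal (2 * Real.pi) * ∫⁻ x in Ioi (2 * Real.pi), ‖FF δ x - PP δ x‖ₑ ^ 2 := by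
  have hpi := Real.pi_pos
  set ξ0 := Real.log (2 * Real.pi) / (2 * Real.pi) with hξ0
  set f : ℝ → ℝ := fun ξ => Real.exp (2 * Real.pi * ξ) with hf
  have himg : f '' Ioi ξ0 = Ioi (2 * Real.pi) := by
    ext y
    simp only [mem_image, mem_Ioi, hf]
    constructor
    · rintro ⟨x, hx, rfl⟩
      rw [hξ0, div_lt_iff₀ (by positivity)] at hx
      calc 2 * Real.pi = Real.exp (Real.log (2 * Real.pi)) := (Real.exp_log (by positivity)).symm
        _ < Real.exp (2 * Real.pi * x) := Real.exp_lt_exp.2 (by linarith)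
    · intro hy
      have hy0 : 0 < y := by linarith
      refine ⟨Real.log y / (2 * Real.pi), ?_, ?_⟩
      · rw [hξ0]
        exact div_lt_div_of_pos_right (Real.log_lt_log (by positivity) hy) (by positivity)
      · rw [mul_div_cancel₀ _ (by positivity), Real.exp_log hy0]
  have key := lintegral_image_eq_lintegral_abs_deriv_mul (s := Ioi ξ0) (f := f)
    (f' := fun ξ => 2 * Real.pi * Real.exp (2 * Real.pi * ξ)) measurableSet_Ioi
    (fun x _ => by
      have : HasDerivAt f (Real.exp (2 * Real.pi * x) * (2 * Real.pi * 1)) x :=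
        ((hasDerivAt_id x).const_mul (2 * Real.pi)).exp
      exact (this.congr_deriv (by ring)).hasDerivWithinAt)
    (fun x _ y _ hxy => by
      have := Real.exp_injective hxy
      exact mul_left_cancel₀ (by positivity) this)
    (fun x => ‖FF δ x - PP δ x‖ₑ ^ 2)
  rw [himg] at key
  rw [key, ← lintegral_const_mul' _ _ ENNReal.ofReal_ne_top]
  refine lintegral_congr fun ξ => ?_
  rw [four_Gl h1 h2 hδ hδ2 ξ, enorm_sq, enorm_sq, ← ENNReal.ofReal_mul (by positivity),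
    ← ENNReal.ofReal_mul (by positivity)]
  congr 1
  rw [norm_mul, norm_mul, mul_pow, mul_pow, Complex.norm_real, abs_of_pos (by positivity)]
  have e1 : ‖(2 * (Real.pi : ℂ))‖ = 2 * Real.pi := by
    rw [norm_mul, Complex.norm_real, Real.norm_of_nonneg hpi.le]; simp
  have e2 : Real.exp (2 * Real.pi * ξ) = Real.exp (Real.pi * ξ) ^ 2 := by
    rw [← Real.exp_nat_mul]; congr 1; push_cast; ring
  rw [e1, Real.norm_of_nonneg (Real.exp_pos _).le]
  simp only [hf]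
  rw [← e2]
  ring

theorem refl_all (h1 : S_SHIFT) (h2 : S_SERIES) (h3 : S_ZB) : S_REFL := by
  intro δ N B hδ hδ2 hN hB hI1 hb1 hI2 hb2
  have hpi := Real.pi_pos
  obtain ⟨K, hK, hb⟩ := Gl_bound h3 hδ hδ2
  obtain ⟨gi, g2⟩ := int_of (Gl_cont δ) hb
  obtain ⟨pi1, p2⟩ := int_of (Pl_cont δ) (K := 2 * K) (fun t => by
    have := Pl_le δ t
    have := hb t
    linarith)
  have hw : ∀ t, ‖Gl δ t‖ ^ 2 = 2 * Real.pi * (‖riemannZeta (pt (1 / 2) t)‖ ^ 4 *
      (Real.exp (-(2 * δ * t)) / (1 + Real.exp (-(2 * Real.pi * t))))) := fun t => GG_sq δ t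
  have gsq : Integrable (fun t => ‖Gl δ t‖ ^ 2) :=
    (memLp_two_iff_integrable_sq_norm (Gl_cont δ).aestronglyMeasurable).1 g2
  have hInt : Integrable (fun t : ℝ => ‖riemannZeta (pt (1 / 2) t)‖ ^ 4 *
      (Real.exp (-(2 * δ * t)) / (1 + Real.exp (-(2 * Real.pi * t))))) := by
    have := gsq.const_mul (2 * Real.pi)⁻¹
    refine this.congr (Filter.Eventually.of_forall fun t => ?_)
    simp only
    rw [hw t]
    field_simp
  refine ⟨hInt, ?_⟩
  set ξ0 := Real.log (2 * Real.pi) / (2 * Real.pi) with hξ0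
  have h2ξ : Real.log (2 * Real.pi) / Real.pi = 2 * ξ0 := by rw [hξ0]; field_simp
  -- right part
  have hA : ∫⁻ ξ in Ioi ξ0, ‖𝓕 (Gl δ) ξ‖ₑ ^ 2 ≤ ENNReal.ofReal (Real.sqrt (2 * Real.pi) * N) ^ 2 := by
    rw [part_right h1 h2 hδ hδ2]
    have e1 : ∫⁻ x in Ioi (2 * Real.pi), ‖FF δ x - PP δ x‖ₑ ^ 2 =
        ENNReal.ofReal (∫ x in Ioi (2 * Real.pi), ‖FF δ x - PP δ x‖ ^ 2) := by
      rw [ofReal_integral_eq_lintegral_ofReal hI1 (Filter.Eventually.of_forall fun x => by positivity)]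
      exact lintegral_congr fun x => enorm_sq _
    rw [e1, ← ENNReal.ofReal_mul (by positivity), ← ENNReal.ofReal_pow (by positivity)]
    apply ENNReal.ofReal_le_ofReal
    rw [mul_pow, Real.sq_sqrt (by positivity)]
    gcongr
  -- the error part
  have hD : ∫⁻ ξ, ‖𝓕 (Pl δ) ξ‖ₑ ^ 2 ≤ ENNReal.ofReal (Real.sqrt (2 * Real.pi) * B) ^ 2 := by
    rw [Pool.Agent.TH794.QD.plancherel _ pi1 p2]
    have psq : Integrable (fun t => ‖Pl δ t‖ ^ 2) :=
      (memLp_two_iff_integrable_sq_norm (Pl_cont δ).aestronglyMeasurable).1 p2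
    have e1 : ∫⁻ x, ‖Pl δ x‖ₑ ^ 2 = ENNReal.ofReal (∫ x, ‖Pl δ x‖ ^ 2) := by
      rw [ofReal_integral_eq_lintegral_ofReal psq (Filter.Eventually.of_forall fun x => by positivity)]
      exact lintegral_congr fun x => enorm_sq _
    rw [e1, ← ENNReal.ofReal_pow (by positivity)]
    apply ENNReal.ofReal_le_ofReal
    rw [mul_pow, Real.sq_sqrt (by positivity)]
    have e2 : ∫ x, ‖Pl δ x‖ ^ 2 = 2 * Real.pi * ∫ t : ℝ, ‖riemannZeta (pt (1 / 2) t)‖ ^ 4 *
        (Real.exp (-(2 * δ * t)) / Real.cosh (Real.pi * t) ^ 2) := by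
      rw [← integral_const_mul]
      exact integral_congr_ae (Filter.Eventually.of_forall fun t => Pl_sq δ t)
    rw [e2]
    gcongr
  -- reflection
  have hR : ∫⁻ ξ in Iio ξ0, ‖𝓕 (Gl δ) (2 * ξ0 - ξ)‖ₑ ^ 2 = ∫⁻ ξ in Ioi ξ0, ‖𝓕 (Gl δ) ξ‖ₑ ^ 2 := by
    have mp := Measure.measurePreserving_sub_left (volume : Measure ℝ) (2 * ξ0)
    have hpre : (fun x => 2 * ξ0 - x) ⁻¹' (Ioi ξ0) = Iio ξ0 := by
      ext x
      simp only [mem_preimage, mem_Ioi, mem_Iio]
      constructor <;> intro h <;> linarith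
    rw [← hpre]
    exact mp.setLIntegral_comp_preimage measurableSet_Ioi
      (f := fun ξ => ‖𝓕 (Gl δ) ξ‖ₑ ^ 2) (by
        have := (four_cont gi).measurable
        fun_prop)
  -- left part
  have hL : ∫⁻ ξ in Iio ξ0, ‖𝓕 (Gl δ) ξ‖ₑ ^ 2 ≤
      ENNReal.ofReal (Real.sqrt (2 * Real.pi) * (N + B)) ^ 2 := by
    rw [← en2]
    have c1 : Continuous (𝓕 (Pl δ)) := four_cont pi1
    have c2 : Continuous (fun ξ => (I * Complex.exp (-(((Real.pi / 2 - δ : ℝ) : ℂ) * I))) *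
        (starRingEnd ℂ) (𝓕 (Gl δ) (2 * ξ0 - ξ))) :=
      continuous_const.mul (Complex.continuous_conj.comp ((four_cont gi).comp (by fun_prop)))
    have e1 : 𝓕 (Gl δ) = 𝓕 (Pl δ) + fun ξ => (I * Complex.exp (-(((Real.pi / 2 - δ : ℝ) : ℂ) * I))) *
        (starRingEnd ℂ) (𝓕 (Gl δ) (2 * ξ0 - ξ)) := by
      funext ξ
      simp only [Pi.add_apply]
      rw [four_Pl gi ξ, h2ξ]
      ring
    have e2 : eLpNorm (𝓕 (Gl δ)) 2 (volume.restrict (Iio ξ0)) ≤
        eLpNorm (𝓕 (Pl δ)) 2 (volume.restrict (Iio ξ0)) +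
        eLpNorm (fun ξ => (I * Complex.exp (-(((Real.pi / 2 - δ : ℝ) : ℂ) * I))) *
        (starRingEnd ℂ) (𝓕 (Gl δ) (2 * ξ0 - ξ))) 2 (volume.restrict (Iio ξ0)) := by
      conv_lhs => rw [e1]
      exact eLpNorm_add_le c1.aestronglyMeasurable c2.aestronglyMeasurable (by norm_num)
    have e3 : eLpNorm (𝓕 (Pl δ)) 2 (volume.restrict (Iio ξ0)) ≤
        ENNReal.ofReal (Real.sqrt (2 * Real.pi) * B) := by
      have : eLpNorm (𝓕 (Pl δ)) 2 (volume.restrict (Iio ξ0)) ^ 2 ≤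
          ENNReal.ofReal (Real.sqrt (2 * Real.pi) * B) ^ 2 := by
        rw [en2]
        exact (setLIntegral_le_lintegral _ _).trans hD
      exact (ENNReal.pow_le_pow_left_iff (by norm_num)).1 this
    have e4 : eLpNorm (fun ξ => (I * Complex.exp (-(((Real.pi / 2 - δ : ℝ) : ℂ) * I))) *
        (starRingEnd ℂ) (𝓕 (Gl δ) (2 * ξ0 - ξ))) 2 (volume.restrict (Iio ξ0)) ≤
        ENNReal.ofReal (Real.sqrt (2 * Real.pi) * N) := by
      have : eLpNorm (fun ξ => (I * Complex.exp (-(((Real.pi / 2 - δ : ℝ) : ℂ) * I))) *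
        (starRingEnd ℂ) (𝓕 (Gl δ) (2 * ξ0 - ξ))) 2 (volume.restrict (Iio ξ0)) ^ 2 ≤
          ENNReal.ofReal (Real.sqrt (2 * Real.pi) * N) ^ 2 := by
        rw [en2]
        refine le_trans (le_of_eq ?_) (hR ▸ hA)
        refine lintegral_congr fun ξ => ?_
        have h1 : ‖Complex.exp (-(((Real.pi / 2 - δ : ℝ) : ℂ) * I))‖ = 1 := by
          rw [Complex.norm_exp]; simp
        rw [enorm_sq, enorm_sq, norm_mul, norm_mul, h1, Complex.norm_I, RCLike.norm_conj]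
        norm_num
      exact (ENNReal.pow_le_pow_left_iff (by norm_num)).1 this
    have e5 : eLpNorm (𝓕 (Gl δ)) 2 (volume.restrict (Iio ξ0)) ≤
        ENNReal.ofReal (Real.sqrt (2 * Real.pi) * (N + B)) := by
      refine e2.trans ((add_le_add e3 e4).trans (le_of_eq ?_))
      rw [← ENNReal.ofReal_add (by positivity) (by positivity)]
      congr 1
      ring
    gcongr
  -- total
  have hT : ∫⁻ t, ‖Gl δ t‖ₑ ^ 2 ≤ ENNReal.ofReal (2 * Real.pi * (N ^ 2 + (N + B) ^ 2)) := by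
    rw [← Pool.Agent.TH794.QD.plancherel _ gi g2, ← lintegral_add_compl _ (measurableSet_Iio (a := ξ0))]
    have hc : (Iio ξ0)ᶜ = Ici ξ0 := compl_Iio
    rw [hc, setLIntegral_congr (Ioi_ae_eq_Ici (a := ξ0)).symm]
    refine (add_le_add hL hA).trans (le_of_eq ?_)
    rw [← ENNReal.ofReal_pow (by positivity), ← ENNReal.ofReal_pow (by positivity),
      ← ENNReal.ofReal_add (by positivity) (by positivity), mul_pow, mul_pow,
      Real.sq_sqrt (by positivity)]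
    congr 1
    ring
  have hT2 : ∫ t, ‖Gl δ t‖ ^ 2 ≤ 2 * Real.pi * (N ^ 2 + (N + B) ^ 2) := by
    have e1 : ∫⁻ x, ‖Gl δ x‖ₑ ^ 2 = ENNReal.ofReal (∫ x, ‖Gl δ x‖ ^ 2) := by
      rw [ofReal_integral_eq_lintegral_ofReal gsq (Filter.Eventually.of_forall fun x => by positivity)]
      exact lintegral_congr fun x => enorm_sq _
    rw [e1] at hT
    exact (ENNReal.ofReal_le_ofReal_iff (by positivity)).1 hT
  have e2 : ∫ x, ‖Gl δ x‖ ^ 2 = 2 * Real.pi * ∫ t : ℝ, ‖riemannZeta (pt (1 / 2) t)‖ ^ 4 *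
      (Real.exp (-(2 * δ * t)) / (1 + Real.exp (-(2 * Real.pi * t)))) := by
    rw [← integral_const_mul]
    exact integral_congr_ae (Filter.Eventually.of_forall fun t => hw t)
  rw [e2] at hT2
  exact le_of_mul_le_mul_left hT2 (by positivity)

end

end Pool.Agent.TH158.FM
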