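import Pool.Agent.TH158.FM.Gen
import Pool.Agent.TH158.FM.Main2

set_option autoImplicit false

/-!
All orders in ranges of `T`: assembly.
-/

namespace Pool.Agent.TH158.FM

open Complex MeasureTheory Set

noncomputable section

/-- the fourth moment for `T ≥ 10^8` -/
theorem fourth2 (h1 : S_REFL) (h2 : S_BB) (h3 : S_NORM2) (T : ℝ) (hT : 10 ^ 8 ≤ T) :
    ∫ t in (0:ℝ)..T, ‖riemannZeta (pt (1 / 2) t)‖ ^ 4 ≤ 4799 / 10000 * (T * Real.log T ^ 4) := by
  have hT0 : 0 < T := by linarith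
  have hδ : 0 < 1 / (2 * T) := by positivity
  have hδ1 : 1 / (2 * T) ≤ 1 / 100 := by
    apply one_div_le_one_div_of_le (by norm_num); linarith
  have hδ2 : 1 / (2 * T) < Real.pi / 2 := by linarith [Real.pi_gt_three]
  obtain ⟨n1, n2⟩ := h3 T hT
  obtain ⟨b1, b2⟩ := h2 (1 / (2 * T)) hδ.le hδ1
  have hl : (69:ℝ) / 10 ≤ Real.log T := log_ge (by linarith)
  have hs : (10000:ℝ) ≤ Real.sqrt T := by
    rw [Real.le_sqrt (by norm_num) hT0.le]
    norm_num
    linarith
  obtain ⟨i1, i2⟩ := h1 (1 / (2 * T)) (2970 / 10000 * Real.sqrt T * Real.log T ^ 2 + 2) 13 hδ hδ2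
    (by positivity) (by norm_num) n1 n2 b1 (b2.trans (by norm_num))
  refine (to_interval hT0 i1).trans ?_
  have he := Real.exp_one_lt_d9
  set X := Real.sqrt T * Real.log T ^ 2 with hX
  have hX1 : 470000 ≤ X := by
    have : (69 / 10 : ℝ) ^ 2 ≤ Real.log T ^ 2 := by gcongr
    calc (470000:ℝ) ≤ 10000 * (69 / 10) ^ 2 := by norm_num
      _ ≤ Real.sqrt T * Real.log T ^ 2 := by gcongr
  have hX2 : T * Real.log T ^ 4 = X ^ 2 := by
    rw [hX, mul_pow, Real.sq_sqrt hT0.le]; ring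
  rw [hX2]
  have e : 2970 / 10000 * Real.sqrt T * Real.log T ^ 2 = 2970 / 10000 * X := by rw [hX]; ring
  rw [e] at i2
  refine (mul_le_mul_of_nonneg_left i2 (Real.exp_pos 1).le).trans ?_
  have h5 : (2970 / 10000 * X + 2) ^ 2 + (2970 / 10000 * X + 2 + 13) ^ 2 ≤ 17645 / 100000 * X ^ 2 := by
    nlinarith
  calc Real.exp 1 * ((2970 / 10000 * X + 2) ^ 2 + (2970 / 10000 * X + 2 + 13) ^ 2)
      ≤ 2.7182818286 * (17645 / 100000 * X ^ 2) := by gcongr
    _ ≤ 4799 / 10000 * X ^ 2 := by nlinarith [sq_nonneg X]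

/-- the fourth moment for `T ≥ 10^8`, from the norm only -/
theorem fourth2_all (hN : S_NORM2) (T : ℝ) (hT : 10 ^ 8 ≤ T) :
    ∫ t in (0:ℝ)..T, ‖riemannZeta (pt (1 / 2) t)‖ ^ 4 ≤ 4799 / 10000 * (T * Real.log T ^ 4) :=
  fourth2 (refl_all Pool.Agent.TH582.FM.shift_all series_all bb_all.1) bb_all.2 hN T hT

lemma le_log_of_pow {x y : ℝ} (n m : ℕ) (hn : n ≠ 0) (hy : 0 < y) (hx : x = m / n)
    (h : (2.7182818286 : ℝ) ^ m ≤ y ^ n) : x ≤ Real.log y := by
  rw [Real.le_log_iff_exp_le hy]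
  have he := Real.exp_one_lt_d9
  have h1 : Real.exp x ^ n ≤ y ^ n := by
    rw [← Real.exp_nat_mul, hx]
    have hn' : (n : ℝ) ≠ 0 := by exact_mod_cast hn
    have : (n : ℝ) * ((m : ℝ) / n) = (m : ℝ) * 1 := by field_simp
    rw [this, Real.exp_nat_mul]
    exact le_trans (by gcongr) h
  exact le_of_pow_le_pow_left₀ hn hy.le h1

lemma log_le_of_pow {x y : ℝ} (n m : ℕ) (hn : n ≠ 0) (hy : 0 < y) (hx : x = m / n)
    (h : y ^ n ≤ (2.7182818283 : ℝ) ^ m) : Real.log y ≤ x := by
  rw [Real.log_le_iff_le_exp hy]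
  have he := Real.exp_one_gt_d9
  have h1 : y ^ n ≤ Real.exp x ^ n := by
    rw [← Real.exp_nat_mul, hx]
    have hn' : (n : ℝ) ≠ 0 := by exact_mod_cast hn
    have : (n : ℝ) * ((m : ℝ) / n) = (m : ℝ) * 1 := by field_simp
    rw [this, Real.exp_nat_mul]
    exact le_trans h (by gcongr)
  exact le_of_pow_le_pow_left₀ hn (Real.exp_pos x).le h1

lemma log_c : (11 : ℝ) / 15 ≤ -Real.log (12 / 25) := by
  rw [← Real.log_inv]
  exact le_log_of_pow 15 11 (by norm_num) (by norm_num) (by norm_num) (by norm_num)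

lemma loglog {x y T : ℝ} (hx : 0 < x) (h : x ≤ Real.log T) (h2 : y ≤ Real.log x) :
    y ≤ Real.log (Real.log T) := h2.trans (Real.log_le_log hx h)

theorem mid_range (hN : S_NORM2) {k T a A L x : ℝ} (hk : 2 ≤ k) (hT : 10 ^ 8 ≤ T) (ha : 1 ≤ a)
    (hV : VV T ≤ a * Real.log T ^ 2) (hA : Real.log a ≤ A) (hx0 : 0 < x) (hx : x ≤ Real.log T)
    (hL : L ≤ Real.log x) (hAL : A ^ 2 ≤ 11 / 15 * L) :
    MM k T < T * Real.log T ^ (k ^ 2) :=
  moment_slack zb_true pw_true (by linarith) hk ha (by norm_num : (0:ℝ) < 12 / 25) (by norm_num)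
    (fourth2_all hN T hT) hV hA log_c
    (by norm_num) (loglog hx0 hx hL) hAL

lemma VV_mid {T : ℝ} (h0 : 0 ≤ T) (h : T ≤ 10 ^ 12) : VV T ≤ 2529 := by
  unfold VV
  have h1 : (T / (2 * Real.pi)) ^ (1 / 4 : ℝ) ≤ 632 := by
    have h2 : T / (2 * Real.pi) ≤ (632 : ℝ) ^ (4 : ℝ) := by
      have : (632 : ℝ) ^ (4 : ℝ) = 632 ^ 4 := by norm_cast
      rw [this, div_le_iff₀ (by positivity)]
      have := Real.pi_gt_d2
      nlinarith
    calc (T / (2 * Real.pi)) ^ (1 / 4 : ℝ) ≤ ((632 : ℝ) ^ (4 : ℝ)) ^ (1 / 4 : ℝ) := by gcongr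
      _ = 632 := by
        rw [← Real.rpow_mul (by norm_num)]
        norm_num
  linarith

/-- all `k ≥ 2` up to `5 * 10^12` -/
theorem all_small (hN : S_NORM2) (hR : S_RANGE2) (k T : ℝ) (hk : 2 ≤ k) (hT : 1000 ≤ T)
    (hT2 : T ≤ 5 * 10 ^ 12) : MM k T < T * Real.log T ^ (k ^ 2) := by
  have hT0 : 0 < T := by linarith
  have hl := log_ge hT
  have hl0 : 0 < Real.log T := by linarith
  have hl1 : 1 ≤ Real.log T := by linarith
  rcases le_total T (5 * 10 ^ 8) with h | h
  · have h1 := moment_le zb_true pw_true hT hk (fourth_all T hT) (by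
      refine (Pool.Agent.TH475.J4850.range_all.1 T hT h).trans ?_
      have : Real.log T ^ 2 = Real.log T ^ (2 : ℝ) := by norm_cast
      rw [this]
      exact Real.rpow_le_rpow_of_exponent_le hl1 (by linarith))
    have : 0 < T * Real.log T ^ (k ^ 2) := by positivity
    linarith
  · have h8 : 10 ^ 8 ≤ T := by linarith
    rcases le_total T (10 ^ 11) with h' | h'
    · refine mid_range hN (a := 9 / 4) (A := 82 / 100) (L := 19 / 10) (x := 69 / 10) hk h8 (by norm_num)
        (hR.1 T h h') ?_ (by norm_num) hl ?_ (by norm_num)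
      · exact log_le_of_pow 100 82 (by norm_num) (by norm_num) (by norm_num) (by norm_num)
      · exact le_log_of_pow 10 19 (by norm_num) (by norm_num) (by norm_num) (by norm_num)
    · have hl11 : (253:ℝ) / 10 ≤ Real.log T := by
        refine le_trans ?_ (Real.log_le_log (by norm_num) h')
        exact le_log_of_pow 10 253 (by norm_num) (by norm_num) (by norm_num) (by norm_num)
      rcases le_total T (10 ^ 12) with h'' | h''
      · refine mid_range hN (a := 4) (A := 139 / 100) (L := 32 / 10) (x := 253 / 10) hk h8 (by norm_num)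
          ?_ ?_ (by norm_num) hl11 ?_ (by norm_num)
        · refine (VV_mid hT0.le h'').trans ?_
          calc (2529:ℝ) ≤ 4 * (253 / 10) ^ 2 := by norm_num
            _ ≤ 4 * Real.log T ^ 2 := by gcongr
        · exact log_le_of_pow 100 139 (by norm_num) (by norm_num) (by norm_num) (by norm_num)
        · exact le_log_of_pow 10 32 (by norm_num) (by norm_num) (by norm_num) (by norm_num)
      · have hl12 : (276:ℝ) / 10 ≤ Real.log T := by
          refine le_trans ?_ (Real.log_le_log (by norm_num) h'')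
          exact le_log_of_pow 5 138 (by norm_num) (by norm_num) (by norm_num) (by norm_num)
        refine mid_range hN (a := 14 / 3) (A := 31 / 20) (L := 33 / 10) (x := 276 / 10) hk h8
          (by norm_num) (hR.2.1 T h' hT2) ?_ (by norm_num) hl12 ?_ (by norm_num)
        · exact log_le_of_pow 20 31 (by norm_num) (by norm_num) (by norm_num) (by norm_num)
        · exact le_log_of_pow 10 33 (by norm_num) (by norm_num) (by norm_num) (by norm_num)

/-- all `k ≥ 3` up to `10^14` -/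
theorem all_three (hN : S_NORM2) (hR : S_RANGE2) (k T : ℝ) (hk : 3 ≤ k) (hT : 1000 ≤ T)
    (hT2 : T ≤ 10 ^ 14) : MM k T ≤ 9954 / 10000 * (T * Real.log T ^ (k ^ 2)) := by
  have hT0 : 0 < T := by linarith
  have hl := log_ge hT
  have hl0 : 0 < Real.log T := by linarith
  have hl1 : 1 ≤ Real.log T := by linarith
  rcases le_total T (10 ^ 13) with h | h
  · have h1 := moment_le zb_true pw_true hT (by linarith : 2 ≤ k) (fourth_all T hT) (by
      refine (Pool.Agent.TH475.J4850.range_all.2 T hT h).trans ?_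
      exact Real.rpow_le_rpow_of_exponent_le hl1 (by linarith))
    have : 0 ≤ T * Real.log T ^ (k ^ 2) := by positivity
    linarith
  · have h8 : 10 ^ 8 ≤ T := by linarith
    have hV : VV T ≤ 36 / 25 * Real.log T ^ (5 / 2 : ℝ) := hR.2.2 T h hT2
    have hW47 : 47 ≤ 36 / 25 * Real.log T ^ (5 / 2 : ℝ) := by
      calc (47:ℝ) ≤ 1 * (69 / 10) ^ 2 := by norm_num
        _ ≤ 1 * Real.log T ^ 2 := by gcongr
        _ = 1 * Real.log T ^ (2 : ℝ) := by norm_cast
        _ ≤ 36 / 25 * Real.log T ^ (5 / 2 : ℝ) := by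
          gcongr
          · norm_num
          · norm_num
    have h1 := moment_gen (k := k) hT (by linarith) (by linarith) (sup_le zb_true pw_true hW47 hV)
      (fourth2_all hN T h8)
    refine h1.trans ?_
    have e1 : (36 / 25 * Real.log T ^ (5 / 2 : ℝ)) ^ (2 * k - 4) =
        (36 / 25 : ℝ) ^ (2 * k - 4) * Real.log T ^ (5 * (k - 2)) := by
      rw [Real.mul_rpow (by norm_num) (by positivity), ← Real.rpow_mul hl0.le]
      congr 2
      ring
    have e2 : Real.log T ^ (k ^ 2) =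
        Real.log T ^ (5 * (k - 2)) * Real.log T ^ 4 * Real.log T ^ ((k - 2) * (k - 3)) := by
      have : Real.log T ^ 4 = Real.log T ^ (4 : ℝ) := by norm_cast
      rw [this, ← Real.rpow_add hl0, ← Real.rpow_add hl0]
      congr 1
      ring
    have e3 : (36 / 25 : ℝ) ^ (2 * k - 4) ≤ (36 / 25) ^ 2 * Real.log T ^ ((k - 2) * (k - 3)) := by
      have f1 : (36 / 25 : ℝ) ^ (2 * k - 4) = (36 / 25) ^ 2 * (36 / 25 : ℝ) ^ (2 * (k - 3)) := by
        have : (36 / 25 : ℝ) ^ 2 = (36 / 25 : ℝ) ^ (2 : ℝ) := by norm_cast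
        rw [this, ← Real.rpow_add (by norm_num)]
        congr 1
        ring
      rw [f1]
      have f2 : (36 / 25 : ℝ) ^ (2 * (k - 3)) ≤ Real.log T ^ ((k - 2) * (k - 3)) := by
        have f3 : (36 / 25 : ℝ) ^ (2 * (k - 3)) = ((36 / 25 : ℝ) ^ 2) ^ (k - 3) := by
          rw [Real.rpow_mul (by norm_num)]
          norm_cast
        rw [f3]
        calc ((36 / 25 : ℝ) ^ 2) ^ (k - 3) ≤ (Real.log T) ^ (k - 3) := by
              apply Real.rpow_le_rpow (by norm_num) _ (by linarith)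
              norm_num
              linarith
          _ ≤ Real.log T ^ ((k - 2) * (k - 3)) := by
              apply Real.rpow_le_rpow_of_exponent_le hl1
              nlinarith
      gcongr
    rw [e1, e2]
    calc (36 / 25 : ℝ) ^ (2 * k - 4) * Real.log T ^ (5 * (k - 2)) * (4799 / 10000 * (T * Real.log T ^ 4))
        ≤ ((36 / 25) ^ 2 * Real.log T ^ ((k - 2) * (k - 3))) * Real.log T ^ (5 * (k - 2)) *
          (4799 / 10000 * (T * Real.log T ^ 4)) := by gcongr
      _ = ((36 / 25) ^ 2 * (4799 / 10000)) * (T * (Real.log T ^ (5 * (k - 2)) * Real.log T ^ 4 *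
          Real.log T ^ ((k - 2) * (k - 3)))) := by ring
      _ ≤ 9954 / 10000 * (T * (Real.log T ^ (5 * (k - 2)) * Real.log T ^ 4 *
          Real.log T ^ ((k - 2) * (k - 3)))) := by
        gcongr
        norm_num

/-- the region `T ≤ (2 k log k)^(2k)` -/
theorem all_region (k T : ℝ) (hk : 2 ≤ k) (hT : 1000 ≤ T)
    (hT2 : T ≤ (2 * k * Real.log k) ^ (2 * k)) :
    MM k T ≤ 4 / 5 * (T * Real.log T ^ (k ^ 2)) :=
  moment_le zb_true pw_true hT hk (fourth_all T hT) (region hT hk hT2)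

/-- the general bound -/
theorem all_gen (hN : S_NORM2) (k T : ℝ) (hk : 2 ≤ k) (hT : 10 ^ 8 ≤ T) :
    MM k T ≤ 4799 / 10000 * (T * Real.log T ^ 4 * VV T ^ (2 * k - 4)) := by
  have hT0 : 0 < T := by linarith
  have h47 : 47 ≤ VV T := by
    unfold VV
    have h1 : (12:ℝ) ≤ (T / (2 * Real.pi)) ^ (1 / 4 : ℝ) := by
      have h2 : (12 : ℝ) ^ (4 : ℝ) ≤ T / (2 * Real.pi) := by
        have : (12 : ℝ) ^ (4 : ℝ) = 12 ^ 4 := by norm_cast
        rw [this, le_div_iff₀ (by positivity)]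
        have := Real.pi_lt_d2
        nlinarith
      calc (12:ℝ) = ((12 : ℝ) ^ (4 : ℝ)) ^ (1 / 4 : ℝ) := by
            rw [← Real.rpow_mul (by norm_num)]
            norm_num
        _ ≤ _ := by gcongr
    linarith
  have h1 := moment_gen (k := k) (by linarith : (1000:ℝ) ≤ T) hk (by linarith)
    (sup_le zb_true pw_true h47 le_rfl) (fourth2_all hN T hT)
  refine h1.trans (le_of_eq ?_)
  ring

end

end Pool.Agent.TH158.FM
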