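import Mathlib

set_option autoImplicit false

/-!
Explicit fourth moment of the zeta function: definitions and the statements of the pieces.
-/

namespace Pool.Agent.TH158.FM

open Complex MeasureTheory Set

noncomputable section

/-- the unit `exp (i (π / 2 - δ)) = sin δ + i cos δ` -/
def ww (δ : ℝ) : ℂ := (Real.sin δ : ℂ) + (Real.cos δ : ℂ) * I

/-- `Γ(s) ζ(s)² exp(-i (π / 2 - δ) s)` -/
def GG (δ : ℝ) (s : ℂ) : ℂ :=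
  Complex.Gamma s * riemannZeta s ^ 2 * Complex.exp (-(((Real.pi / 2 - δ : ℝ) : ℂ) * I) * s)

/-- the number of divisors -/
def dd (n : ℕ) : ℝ := (n.divisors.card : ℝ)

/-- `F(x) = ∑ d(n) exp(-n x w)` -/
def FF (δ x : ℝ) : ℂ := ∑' n : ℕ, (dd n : ℂ) * Complex.exp (-((n * x : ℝ) : ℂ) * ww δ)

/-- the polar part `(γ - log x - i (π / 2 - δ)) / (x w)` -/
def PP (δ x : ℝ) : ℂ :=
  ((Real.eulerMascheroniConstant - Real.log x : ℝ) - ((Real.pi / 2 - δ : ℝ) : ℂ) * I) / ((x : ℂ) * ww δ)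

/-- the point `σ + i t` -/
def pt (σ t : ℝ) : ℂ := (σ : ℂ) + (t : ℂ) * I

/-- contour shift from `Re s = 2` to `Re s = 1/2` (double pole at `1`) -/
def S_SHIFT : Prop := ∀ δ : ℝ, 0 < δ → δ < Real.pi / 2 → ∀ x : ℝ, 0 < x →
  (∫ t : ℝ, GG δ (pt (1 / 2) t) * (x : ℂ) ^ (-(pt (1 / 2) t))) =
    (∫ t : ℝ, GG δ (pt 2 t) * (x : ℂ) ^ (-(pt 2 t))) - 2 * Real.pi * PP δ x

/-- the line `Re s = 2`: Mellin inversion term by term -/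
def S_SERIES : Prop := ∀ δ : ℝ, 0 < δ → δ < Real.pi / 2 → ∀ x : ℝ, 0 < x →
  (∫ t : ℝ, GG δ (pt 2 t) * (x : ℂ) ^ (-(pt 2 t))) = 2 * Real.pi * FF δ x

/-- crude bound on the critical line -/
def S_ZB : Prop := ∀ t : ℝ, ‖riemannZeta (pt (1 / 2) t)‖ ≤ 3 + |t|

/-- the error integral -/
def S_BB : Prop := ∀ δ : ℝ, 0 ≤ δ → δ ≤ 1 / 100 →
  Integrable (fun t : ℝ => ‖riemannZeta (pt (1 / 2) t)‖ ^ 4 * (Real.exp (-(2 * δ * t)) / Real.cosh (Real.pi * t) ^ 2)) ∧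
  ∫ t : ℝ, ‖riemannZeta (pt (1 / 2) t)‖ ^ 4 * (Real.exp (-(2 * δ * t)) / Real.cosh (Real.pi * t) ^ 2) ≤ 169

/-- the mean square of an exponential sum with damping (Hilbert's inequality) -/
def S_HIL : Prop := ∀ (M : ℕ) (a : ℕ → ℝ) (S C X : ℝ), 0 < S → 0 < C →
  ∫ x in Ioi X, ‖∑ n ∈ Finset.Icc 1 M, (a n : ℂ) * Complex.exp (-((n * x : ℝ) : ℂ) * ((S : ℂ) + (C : ℂ) * I))‖ ^ 2 ≤
    1 / (2 * S) * ∑ n ∈ Finset.Icc 1 M, a n ^ 2 * Real.exp (-(2 * n * X * S)) / n +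
    Real.pi / C * (∑ n ∈ Finset.Icc 1 M, a n ^ 2 * Real.exp (-(2 * n * X * S)) +
      Real.sqrt (∑ n ∈ Finset.Icc 1 M, a n ^ 2 * Real.exp (-(2 * n * X * S)) / n) *
      Real.sqrt (∑ n ∈ Finset.Icc 1 M, a n ^ 2 * Real.exp (-(2 * n * X * S)) * n))

/-- Hilbert's inequality for integers -/
def S_HIL0 : Prop := ∀ (M : ℕ) (a b : ℕ → ℂ),
  ‖∑ m ∈ Finset.Icc 1 M, ∑ n ∈ (Finset.Icc 1 M).erase m, a m * (starRingEnd ℂ) (b n) / ((m : ℂ) - (n : ℂ))‖ ≤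
    Real.pi * (Real.sqrt (∑ n ∈ Finset.Icc 1 M, ‖a n‖ ^ 2) * Real.sqrt (∑ n ∈ Finset.Icc 1 M, ‖b n‖ ^ 2))

/-- partial sums of `d(n)² / n` -/
def S_DIV : Prop := ∀ x : ℝ, 1 ≤ x →
  ∑ n ∈ Finset.Icc 1 ⌊x⌋₊, dd n ^ 2 / (n : ℝ) ≤ (Real.log x + 3) ^ 4 / 24

/-- the three Laplace sums -/
def S_LAP : Prop := ∀ (η : ℝ) (M : ℕ), 0 < η → η ≤ 1 / 20 →
  (∑ n ∈ Finset.Icc 1 M, dd n ^ 2 * Real.exp (-(η * n)) / n ≤ (Real.log (1 / η) + 3) ^ 4 / 24) ∧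
  (∑ n ∈ Finset.Icc 1 M, dd n ^ 2 * Real.exp (-(η * n)) ≤
    1 / (Real.exp 1 * η) * ((Real.log (3 / η) + 3) ^ 4 / 24)) ∧
  (∑ n ∈ Finset.Icc 1 M, dd n ^ 2 * Real.exp (-(η * n)) * n ≤
    4 / (Real.exp 1 ^ 2 * η ^ 2) * ((Real.log (9 / (2 * η)) + 3) ^ 4 / 24))

/-- the norm over `x > 2π` for `δ = 1 / (2T)` -/
def S_NORM : Prop := ∀ T : ℝ, 1000 ≤ T →
  IntegrableOn (fun x : ℝ => ‖FF (1 / (2 * T)) x - PP (1 / (2 * T)) x‖ ^ 2) (Ioi (2 * Real.pi)) ∧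
  ∫ x in Ioi (2 * Real.pi), ‖FF (1 / (2 * T)) x - PP (1 / (2 * T)) x‖ ^ 2 ≤
    (3769 / 10000 * Real.sqrt T * Real.log T ^ 2 + 2) ^ 2

/-- reflection: the mean value over the whole line from the part `x > 2π` -/
def S_REFL : Prop := ∀ (δ N B : ℝ), 0 < δ → δ < Real.pi / 2 → 0 ≤ N → 0 ≤ B →
  IntegrableOn (fun x : ℝ => ‖FF δ x - PP δ x‖ ^ 2) (Ioi (2 * Real.pi)) →
  ∫ x in Ioi (2 * Real.pi), ‖FF δ x - PP δ x‖ ^ 2 ≤ N ^ 2 →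
  Integrable (fun t : ℝ => ‖riemannZeta (pt (1 / 2) t)‖ ^ 4 * (Real.exp (-(2 * δ * t)) / Real.cosh (Real.pi * t) ^ 2)) →
  ∫ t : ℝ, ‖riemannZeta (pt (1 / 2) t)‖ ^ 4 * (Real.exp (-(2 * δ * t)) / Real.cosh (Real.pi * t) ^ 2) ≤ B ^ 2 →
  Integrable (fun t : ℝ => ‖riemannZeta (pt (1 / 2) t)‖ ^ 4 *
    (Real.exp (-(2 * δ * t)) / (1 + Real.exp (-(2 * Real.pi * t))))) ∧
  ∫ t : ℝ, ‖riemannZeta (pt (1 / 2) t)‖ ^ 4 * (Real.exp (-(2 * δ * t)) / (1 + Real.exp (-(2 * Real.pi * t)))) ≤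
    N ^ 2 + (N + B) ^ 2

end

end Pool.Agent.TH158.FM
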