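import Pool.Agent.TH158.FM.Stm

set_option autoImplicit false

/-!
Explicit pointwise bound on the critical line: the statements of the pieces.
-/

namespace Pool.Agent.TH158.FM

open Complex MeasureTheory Set Filter Topology

noncomputable section

/-- `∫_c^∞ e(a u) u^(-s-1) du`, `s = 1/2 + i t` -/
def KK (a c t : ℝ) : ℂ :=
  ∫ u in Ioi c, Complex.exp (((2 * Real.pi * a * u : ℝ) : ℂ) * I) * (u : ℂ) ^ (-(pt (1 / 2) t) - 1)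

/-- one term of the sawtooth expansion -/
def TT (m : ℕ) (c t : ℝ) : ℂ :=
  pt (1 / 2) t / (2 * Real.pi * I * m) * (KK m c t - KK (-m) c t)

/-- Euler-Maclaurin with the Fourier expansion of the sawtooth function -/
def S_SAW : Prop := ∀ t c : ℝ, 0 < c →
  Tendsto (fun M : ℕ => ∑ m ∈ Finset.Icc 1 M, TT m c t) atTop
    (𝓝 (riemannZeta (pt (1 / 2) t) - ∑ n ∈ Finset.Icc 1 ⌊c⌋₊, (n : ℂ) ^ (-(pt (1 / 2) t)) +
      (c : ℂ) ^ (1 - pt (1 / 2) t) / (1 - pt (1 / 2) t) -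
      ((Int.fract c - 1 / 2 : ℝ) : ℂ) * (c : ℂ) ^ (-(pt (1 / 2) t))))

/-- the terms with a stationary point -/
def S_GAM : Prop := ∀ (t c : ℝ) (m : ℕ), 0 < c → 1 ≤ m → 2 * Real.pi * m * c < t →
  ‖pt (1 / 2) t / (2 * Real.pi * I * m) * KK m c t‖ ≤
    1 / Real.sqrt m + 1 / (2 * Real.pi * m * Real.sqrt c) + 2 * Real.sqrt c / (t - 2 * Real.pi * m * c)

/-- the terms without stationary point -/
def S_NS : Prop :=
  (∀ (t c : ℝ) (m : ℕ), 0 < c → 1 ≤ m → 0 < t → t < 2 * Real.pi * m * c →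
    ‖KK m c t‖ ≤ 2 / (Real.sqrt c * (2 * Real.pi * m * c - t))) ∧
  (∀ (t c : ℝ) (m : ℕ), 0 < c → 1 ≤ m → 0 ≤ t →
    ‖KK (-m) c t‖ ≤ 2 / (Real.sqrt c * (2 * Real.pi * m * c + t)))

/-- the pointwise bound -/
def S_PW : Prop := ∀ t : ℝ, 44 ≤ t →
  ‖riemannZeta (pt (1 / 2) t)‖ ≤ 4 * (t / (2 * Real.pi)) ^ (1 / 4 : ℝ) + 1

/-- the ranges -/
def S_RANGE : Prop :=
  (∀ T : ℝ, 1000 ≤ T → T ≤ 5 * 10 ^ 8 → 4 * (T / (2 * Real.pi)) ^ (1 / 4 : ℝ) + 1 ≤ Real.log T ^ 2) ∧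
  (∀ T : ℝ, 1000 ≤ T → T ≤ 10 ^ 13 → 4 * (T / (2 * Real.pi)) ^ (1 / 4 : ℝ) + 1 ≤ Real.log T ^ (5 / 2 : ℝ))

end

end Pool.Agent.TH158.FM
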