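import Pool.Agent.TH158.FM.Stm2

set_option autoImplicit false

/-!
Larger ranges: the norm for `T ≥ 10^8` and numerical inequalities.
-/

namespace Pool.Agent.TH158.FM

open Complex MeasureTheory Set Filter Topology

noncomputable section

/-- the norm over `x > 2π` for `δ = 1 / (2T)`, `T ≥ 10^8` -/
def S_NORM2 : Prop := ∀ T : ℝ, 10 ^ 8 ≤ T →
  IntegrableOn (fun x : ℝ => ‖FF (1 / (2 * T)) x - PP (1 / (2 * T)) x‖ ^ 2) (Ioi (2 * Real.pi)) ∧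
  ∫ x in Ioi (2 * Real.pi), ‖FF (1 / (2 * T)) x - PP (1 / (2 * T)) x‖ ^ 2 ≤
    (2970 / 10000 * Real.sqrt T * Real.log T ^ 2 + 2) ^ 2

/-- further ranges -/
def S_RANGE2 : Prop :=
  (∀ T : ℝ, 5 * 10 ^ 8 ≤ T → T ≤ 10 ^ 11 →
    4 * (T / (2 * Real.pi)) ^ (1 / 4 : ℝ) + 1 ≤ 9 / 4 * Real.log T ^ 2) ∧
  (∀ T : ℝ, 10 ^ 11 ≤ T → T ≤ 5 * 10 ^ 12 →
    4 * (T / (2 * Real.pi)) ^ (1 / 4 : ℝ) + 1 ≤ 14 / 3 * Real.log T ^ 2) ∧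
  (∀ T : ℝ, 10 ^ 13 ≤ T → T ≤ 10 ^ 14 →
    4 * (T / (2 * Real.pi)) ^ (1 / 4 : ℝ) + 1 ≤ 36 / 25 * Real.log T ^ (5 / 2 : ℝ))

end

end Pool.Agent.TH158.FM
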